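import Pool.Agent.R237.ZS.Simp

/-!
# The simple algebra without strictly positive element
-/

set_option autoImplicit false

open scoped InnerProductSpace ComplexConjugate symmDiff

namespace Pool.Agent.R237.ZS

noncomputable section

variable {I N : Type}

/-- The Hilbert space on which everything acts. -/
abbrev HH (I N : Type) : Type := HE (Set (ℕ ⊕ I) × (N ⊕ I))

/-- The special points. -/
def spt (pt : N → Set (ℕ ⊕ I)) (n : N) (i : I) : Set (ℕ ⊕ I) := pt n ∆ {Sum.inr i}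

/-- The special vectors. -/
def gv (pt : N → Set (ℕ ⊕ I)) (w : N → ℝ) (n : N) (i : I) : HH I N :=
  dl (spt pt n i, Sum.inl n) - (w n : ℂ) • dl (spt pt n i, Sum.inr i)

theorem star_apply_inner {Ω : Type} (T : HE Ω →L[ℂ] HE Ω) (ω : Ω) (ξ : HE Ω) :
    (star T) ξ ω = ⟪T (dl ω), ξ⟫_ℂ := by
  rw [← inner_dl, ContinuousLinearMap.star_eq_adjoint, ContinuousLinearMap.adjoint_inner_right]

theorem inner_dl_right {Ω : Type} (ω : Ω) (ξ : HE Ω) : ⟪ξ, dl ω⟫_ℂ = conj (ξ ω) := by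
  rw [← inner_conj_symm, inner_dl]

/-- The algebra. -/
def AA (pt : N → Set (ℕ ⊕ I)) (w : N → ℝ) :
    NonUnitalStarSubalgebra ℂ (HH I N →L[ℂ] HH I N) where
  carrier := {T | T ∈ BB (ℕ ⊕ I) (N ⊕ I) ∧ ∀ n i, T (gv pt w n i) = 0 ∧
    (star T) (gv pt w n i) = 0}
  add_mem' := by
    rintro T S ⟨hT, hT'⟩ ⟨hS, hS'⟩
    refine ⟨Submodule.add_mem _ hT hS, fun n i => ⟨?_, ?_⟩⟩
    · rw [add_apply, (hT' n i).1, (hS' n i).1, add_zero]
    · rw [star_add, add_apply, (hT' n i).2, (hS' n i).2, add_zero]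
  zero_mem' := ⟨Submodule.zero_mem _, fun n i => ⟨rfl, by rw [star_zero]; rfl⟩⟩
  mul_mem' := by
    rintro T S ⟨hT, hT'⟩ ⟨hS, hS'⟩
    refine ⟨BB_mul hT hS, fun n i => ⟨?_, ?_⟩⟩
    · rw [mul_apply_eq_comp, (hS' n i).1, map_zero]
    · rw [star_mul, mul_apply_eq_comp, (hT' n i).2, map_zero]
  smul_mem' := by
    rintro c T ⟨hT, hT'⟩
    refine ⟨Submodule.smul_mem _ _ hT, fun n i => ⟨?_, ?_⟩⟩
    · rw [smul_apply, (hT' n i).1, smul_zero]
    · rw [star_smul, smul_apply, (hT' n i).2, smul_zero]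
  star_mem' := by
    rintro T ⟨hT, hT'⟩
    refine ⟨BB_star hT, fun n i => ⟨(hT' n i).2, ?_⟩⟩
    rw [star_star]; exact (hT' n i).1

theorem mem_AA {pt : N → Set (ℕ ⊕ I)} {w : N → ℝ} {T : HH I N →L[ℂ] HH I N} :
    T ∈ AA pt w ↔ T ∈ BB (ℕ ⊕ I) (N ⊕ I) ∧ ∀ n i, T (gv pt w n i) = 0 ∧
    (star T) (gv pt w n i) = 0 := Iff.rfl

theorem isClosed_AA (pt : N → Set (ℕ ⊕ I)) (w : N → ℝ) :
    IsClosed (AA pt w : Set (HH I N →L[ℂ] HH I N)) := by
  have h : (AA pt w : Set (HH I N →L[ℂ] HH I N)) = (BB (ℕ ⊕ I) (N ⊕ I) : Set _) ∩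
      ⋂ n, ⋂ i, ({T | T (gv pt w n i) = 0} ∩ {T | (star T) (gv pt w n i) = 0}) := by
    ext T
    simp only [SetLike.mem_coe, mem_AA, Set.mem_inter_iff, Set.mem_iInter, Set.mem_ofPred_eq]
  rw [h]
  refine isClosed_BB.inter (isClosed_iInter fun n => isClosed_iInter fun i => ?_)
  refine IsClosed.inter ?_ ?_
  · exact isClosed_eq (ContinuousLinearMap.apply ℂ _ (gv pt w n i)).continuous continuous_const
  · exact isClosed_eq ((ContinuousLinearMap.apply ℂ _ (gv pt w n i)).continuous.comp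
      continuous_star) continuous_const

/-- Hereditary. -/
theorem hered {pt : N → Set (ℕ ⊕ I)} {w : N → ℝ} {T S X : HH I N →L[ℂ] HH I N}
    (hT : T ∈ AA pt w) (hS : S ∈ AA pt w) (hX : X ∈ BB (ℕ ⊕ I) (N ⊕ I)) :
    T * X * S ∈ AA pt w := by
  refine ⟨BB_mul (BB_mul hT.1 hX) hS.1, fun n i => ⟨?_, ?_⟩⟩
  · rw [mul_apply_eq_comp, (hS.2 n i).1, map_zero]
  · rw [mul_assoc, star_mul, mul_apply_eq_comp, (hT.2 n i).2, map_zero]

/-! ### The element `a` -/

section elemA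

/-- The building blocks of `a`. -/
def Dk (pt : N → Set (ℕ ⊕ I)) (p : N × ℕ) : HH I N →L[ℂ] HH I N :=
  W ∅ {Sum.inl p.2} (pt p.1 ∆ {Sum.inl p.2}) (Sum.inl p.1) (Sum.inl p.1)

open Classical in
/-- The diagonal coefficient. -/
def co (pt : N → Set (ℕ ⊕ I)) (p : N × ℕ) (ω : Set (ℕ ⊕ I) × (N ⊕ I)) : ℝ :=
  if ω.2 = Sum.inl p.1 ∧ Agr {Sum.inl p.2} ω.1 (pt p.1 ∆ {Sum.inl p.2}) then 1 else 0

theorem co_nonneg (pt : N → Set (ℕ ⊕ I)) (p : N × ℕ) (ω : Set (ℕ ⊕ I) × (N ⊕ I)) :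
    0 ≤ co pt p ω := by
  unfold co; split_ifs <;> norm_num

theorem co_le (pt : N → Set (ℕ ⊕ I)) (p : N × ℕ) (ω : Set (ℕ ⊕ I) × (N ⊕ I)) :
    co pt p ω ≤ 1 := by
  unfold co; split_ifs <;> norm_num

theorem Dk_dl (pt : N → Set (ℕ ⊕ I)) (p : N × ℕ) (ω : Set (ℕ ⊕ I) × (N ⊕ I)) :
    Dk pt p (dl ω) = (co pt p ω : ℂ) • dl ω := by
  obtain ⟨x, k⟩ := ω
  rw [Dk, W_dl, co]
  split_ifs with h
  · rw [flip_empty', ← h.1]; simp
  · simp

theorem exists_a [Countable N] (pt : N → Set (ℕ ⊕ I)) (w : N → ℝ) :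
    ∃ a ∈ AA pt w, star a = a ∧ ∃ α : Set (ℕ ⊕ I) × (N ⊕ I) → ℝ,
      (∀ ω, a (dl ω) = (α ω : ℂ) • dl ω) ∧ ∀ (x : Set (ℕ ⊕ I)) (n : N) (k : ℕ),
        Agr {Sum.inl k} x (pt n ∆ {Sum.inl k}) → α (x, Sum.inl n) ≠ 0 := by
  classical
  haveI : Encodable (N × ℕ) := Encodable.ofCountable _
  obtain ⟨v, hv0, c, hv, -⟩ := posSumOfEncodable (one_pos) (N × ℕ)
  have hvs : Summable v := hv.summable
  have hsum : Summable fun p => (v p : ℂ) • Dk pt p := by
    refine Summable.of_norm_bounded hvs fun p => ?_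
    rw [norm_smul, Complex.norm_real, Real.norm_of_nonneg (hv0 p).le]
    calc v p * ‖Dk pt p‖ ≤ v p * 1 := by
          gcongr
          · exact (hv0 p).le
          · exact norm_W_le _ _ _ _ _
      _ = v p := mul_one _
  set a := ∑' p, (v p : ℂ) • Dk pt p with ha
  have hcs : ∀ ω, Summable fun p => v p * co pt p ω := fun ω => by
    refine Summable.of_nonneg_of_le (fun p => mul_nonneg (hv0 p).le (co_nonneg _ _ _))
      (fun p => ?_) hvs
    calc v p * co pt p ω ≤ v p * 1 := by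
          gcongr
          · exact (hv0 p).le
          · exact co_le _ _ _
      _ = v p := mul_one _
  set α : Set (ℕ ⊕ I) × (N ⊕ I) → ℝ := fun ω => ∑' p, v p * co pt p ω with hα
  have hadl : ∀ ω, a (dl ω) = (α ω : ℂ) • dl ω := by
    intro ω
    have h1 : HasSum (fun p => ((v p : ℂ) • Dk pt p) (dl ω)) (a (dl ω)) :=
      hsum.hasSum.mapL (ContinuousLinearMap.apply ℂ _ (dl ω))
    have h2 : HasSum (fun p => ((v p * co pt p ω : ℝ) : ℂ) • (dl ω : HH I N))
        ((α ω : ℂ) • dl ω) := by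
      have := ((hcs ω).hasSum.mapL (Complex.ofRealCLM))
      exact HasSum.smul_const this _
    refine h1.unique ?_
    convert h2 using 2 with p
    rw [smul_apply, Dk_dl, smul_smul]
    push_cast; rfl
  have hstar : star a = a := by
    refine ext_ent fun ω η => ?_
    rw [ent_star, ent, ent, hadl, hadl]
    simp only [lp.coeFn_smul, Pi.smul_apply, smul_eq_mul, map_mul, Complex.conj_ofReal]
    by_cases h : ω = η
    · subst h; simp [dl_self]
    · rw [dl_ne h, dl_ne (Ne.symm h)]; simp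
  have haB : a ∈ BB (ℕ ⊕ I) (N ⊕ I) := by
    refine isClosed_BB.mem_of_tendsto hsum.hasSum (Filter.Eventually.of_forall fun s => ?_)
    exact Submodule.sum_mem _ fun p _ => Submodule.smul_mem _ _ (W_mem _ _ _ _ _)
  have hg : ∀ n i, a (gv pt w n i) = 0 := by
    intro n i
    rw [gv, map_sub, map_smul, hadl, hadl]
    have h1 : α (spt pt n i, Sum.inl n) = 0 := by
      rw [hα]
      refine (tsum_congr fun p => ?_).trans tsum_zero
      rw [co, if_neg, mul_zero]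
      rintro ⟨h2, h3⟩
      have h4 : p.1 = n := by simpa using h2.symm
      have h5 := h3 (Sum.inl p.2) (Finset.mem_singleton_self _)
      rw [h4] at h5
      simp only [spt, Set.mem_symmDiff, Set.mem_singleton_iff, reduceCtorEq, not_false_eq_true,
        and_true, and_false, or_false, false_or, not_true_eq_false, true_and, false_and] at h5
      tauto
    have h2 : α (spt pt n i, Sum.inr i) = 0 := by
      rw [hα]
      refine (tsum_congr fun p => ?_).trans tsum_zero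
      rw [co, if_neg, mul_zero]
      rintro ⟨h2, h3⟩
      simp at h2
    rw [h1, h2]; simp
  refine ⟨a, ⟨haB, fun n i => ⟨hg n i, by rw [hstar]; exact hg n i⟩⟩, hstar, α, hadl, ?_⟩
  intro x n k hk
  have h1 : 0 < v (n, k) * co pt (n, k) (x, Sum.inl n) := by
    rw [co, if_pos ⟨rfl, hk⟩, mul_one]
    exact hv0 _
  have h2 := (hcs (x, Sum.inl n)).le_tsum (n, k)
    (fun p _ => mul_nonneg (hv0 p).le (co_nonneg _ _ _))
  exact (h1.trans_le h2).ne'

end elemA

/-! ### `a` is not a zero divisor -/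

theorem ent_diag_mul {Ω : Type} {a T : HE Ω →L[ℂ] HE Ω} {α : Ω → ℝ} (hs : star a = a)
    (ha : ∀ ω, a (dl ω) = (α ω : ℂ) • dl ω) (ω η : Ω) :
    ent (a * T) ω η = (α ω : ℂ) * ent T ω η := by
  rw [ent, mul_apply_eq_comp, ← inner_dl, ent]
  have h1 : ⟪dl ω, a (T (dl η))⟫_ℂ = ⟪a (dl ω), T (dl η)⟫_ℂ := by
    conv_lhs => rw [← hs]
    rw [ContinuousLinearMap.star_eq_adjoint, ContinuousLinearMap.adjoint_inner_right]
  rw [h1, ha, inner_smul_left, inner_dl, Complex.conj_ofReal]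

theorem no_div {pt : N → Set (ℕ ⊕ I)} {w : N → ℝ} (hw : ∀ n, w n ≠ 0)
    (hd : ∀ (i : I) (G : Finset (ℕ ⊕ I)) (z : Set (ℕ ⊕ I)), ∃ n, Agr G (spt pt n i) z)
    {a : HH I N →L[ℂ] HH I N} {α : Set (ℕ ⊕ I) × (N ⊕ I) → ℝ} (hs : star a = a)
    (ha : ∀ ω, a (dl ω) = (α ω : ℂ) • dl ω)
    (hα : ∀ (x : Set (ℕ ⊕ I)) (n : N) (k : ℕ),
        Agr {Sum.inl k} x (pt n ∆ {Sum.inl k}) → α (x, Sum.inl n) ≠ 0)
    {T : HH I N →L[ℂ] HH I N} (hT : T ∈ AA pt w) (haT : a * T = 0) : T = 0 := by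
  classical
  have h0 : ∀ ω η, α ω ≠ 0 → ent T ω η = 0 := by
    intro ω η h
    have h1 := ent_diag_mul (T := T) hs ha ω η
    rw [haT, ent_zero] at h1
    rcases mul_eq_zero.1 h1.symm with h2 | h2
    · exact absurd (by exact_mod_cast h2) h
    · exact h2
  -- the rows indexed by `N` vanish
  have h1 : ∀ (y : Set (ℕ ⊕ I)) (n : N) η, ent T (y, Sum.inl n) η = 0 := by
    rintro y n ⟨x, k⟩
    by_cases hF : ∃ F : Finset (ℕ ⊕ I), y = x ∆ (F : Set (ℕ ⊕ I))
    · obtain ⟨F, rfl⟩ := hF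
      by_contra hne
      obtain ⟨G, hG⟩ := lc hT.1 (half_pos (norm_pos_iff.2 hne))
      -- a coordinate outside `G`
      obtain ⟨j, hj⟩ : ∃ j : ℕ, (Sum.inl j : ℕ ⊕ I) ∉ G := by
        by_contra hcon
        push Not at hcon
        have : Set.Infinite (Set.range (Sum.inl : ℕ → ℕ ⊕ I)) :=
          Set.infinite_range_of_injective Sum.inl_injective
        exact this (G.finite_toSet.subset (by rintro _ ⟨j, rfl⟩; exact hcon j))
      obtain ⟨x', hx', hx''⟩ : ∃ x', Agr G x x' ∧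
          Agr {Sum.inl j} (x' ∆ (F : Set (ℕ ⊕ I))) (pt n ∆ {Sum.inl j}) := by
        by_cases hc : (Sum.inl j ∈ x ∆ (F : Set (ℕ ⊕ I)) ↔ Sum.inl j ∈ pt n ∆ {Sum.inl j})
        · refine ⟨x, Agr.refl _ _, fun i hi => ?_⟩
          rw [Finset.mem_singleton.1 hi]; exact hc
        · refine ⟨x ∆ {Sum.inl j}, fun i hi => ?_, fun i hi => ?_⟩
          · have : i ≠ Sum.inl j := fun h => hj (h ▸ hi)
            rw [Set.mem_symmDiff]; simp [this]
          · rw [Finset.mem_singleton.1 hi]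
            simp only [Set.mem_symmDiff, Set.mem_singleton_iff, not_true_eq_false, and_false,
              true_and, false_or] at hc ⊢
            tauto
      have h2 := hG x x' hx' F (Sum.inl n) k
      rw [h0 (x' ∆ (F : Set (ℕ ⊕ I)), Sum.inl n) _ (hα _ n j hx''), sub_zero] at h2
      have h3 := norm_pos_iff.2 hne
      linarith
    · push Not at hF
      exact supp hT.1 hF _ _
  -- the rows indexed by `I` vanish at the special points
  have h2 : ∀ (n : N) (i : I) η, ent T (spt pt n i, Sum.inr i) η = 0 := by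
    intro n i η
    have h3 : (star T) (gv pt w n i) η = 0 := by rw [(hT.2 n i).2]; rfl
    rw [star_apply_inner, gv, inner_sub_right, inner_smul_right, inner_dl_right,
      inner_dl_right] at h3
    have h4 : (T (dl η)) (spt pt n i, Sum.inl n) = 0 := h1 _ n η
    rw [h4, map_zero, zero_sub, neg_eq_zero] at h3
    rcases mul_eq_zero.1 h3 with h5 | h5
    · exact absurd (Complex.ofReal_eq_zero.1 h5) (hw n)
    · exact (map_eq_zero _).1 h5
  have h3 : ∀ (y : Set (ℕ ⊕ I)) (i : I) η, ent T (y, Sum.inr i) η = 0 := by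
    rintro y i ⟨x, k⟩
    by_cases hF : ∃ F : Finset (ℕ ⊕ I), y = x ∆ (F : Set (ℕ ⊕ I))
    · obtain ⟨F, rfl⟩ := hF
      by_contra hne
      obtain ⟨G, hG⟩ := lc hT.1 (half_pos (norm_pos_iff.2 hne))
      obtain ⟨n, hn⟩ := hd i G (x ∆ (F : Set (ℕ ⊕ I)))
      have h4 : Agr G x (spt pt n i ∆ (F : Set (ℕ ⊕ I))) := by
        have := (hn.flip (F : Set (ℕ ⊕ I))).symm
        rwa [flip_flip] at this
      have h5 := hG x _ h4 F (Sum.inr i) k
      rw [flip_flip, h2, sub_zero] at h5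
      have h6 := norm_pos_iff.2 hne
      linarith
    · push Not at hF
      exact supp hT.1 hF _ _
  refine ext_ent ?_
  rintro ⟨y, l | l⟩ η
  · rw [h1, ent_zero]
  · rw [h3, ent_zero]

end

end Pool.Agent.R237.ZS
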