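import Pool.Agent.R237.ZS.Ely

/-!
# Ideals of the algebra, ambient form
-/

set_option autoImplicit false

open scoped InnerProductSpace ComplexConjugate symmDiff

namespace Pool.Agent.R237.ZS

noncomputable section

variable {I N : Type}

/-- The absorbing set attached to a subspace `P`. -/
def Kab (pt : N → Set (ℕ ⊕ I)) (w : N → ℝ) (P : Submodule ℂ (HH I N →L[ℂ] HH I N)) :
    Submodule ℂ (HH I N →L[ℂ] HH I N) where
  carrier := {S | ∀ X ∈ BB (ℕ ⊕ I) (N ⊕ I), ∀ Y ∈ BB (ℕ ⊕ I) (N ⊕ I), ∀ u ∈ AA pt w,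
    ∀ v ∈ AA pt w, u * X * S * (Y * v) ∈ P}
  add_mem' := fun {S S'} hS hS' X hX Y hY u hu v hv => by
    rw [mul_add, add_mul]
    exact P.add_mem (hS X hX Y hY u hu v hv) (hS' X hX Y hY u hu v hv)
  zero_mem' := fun X _ Y _ u _ v _ => by
    rw [mul_zero, zero_mul]; exact P.zero_mem
  smul_mem' := fun c S hS X hX Y hY u hu v hv => by
    rw [mul_smul_comm, smul_mul_assoc]
    exact P.smul_mem _ (hS X hX Y hY u hu v hv)

theorem mem_Kab {pt : N → Set (ℕ ⊕ I)} {w : N → ℝ} {P : Submodule ℂ (HH I N →L[ℂ] HH I N)}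
    {S : HH I N →L[ℂ] HH I N} : S ∈ Kab pt w P ↔ ∀ X ∈ BB (ℕ ⊕ I) (N ⊕ I),
      ∀ Y ∈ BB (ℕ ⊕ I) (N ⊕ I), ∀ u ∈ AA pt w, ∀ v ∈ AA pt w, u * X * S * (Y * v) ∈ P := Iff.rfl

theorem isClosed_Kab (pt : N → Set (ℕ ⊕ I)) (w : N → ℝ)
    {P : Submodule ℂ (HH I N →L[ℂ] HH I N)}
    (hP : IsClosed (P : Set (HH I N →L[ℂ] HH I N))) :
    IsClosed (Kab pt w P : Set (HH I N →L[ℂ] HH I N)) := by
  have h1 : (Kab pt w P : Set (HH I N →L[ℂ] HH I N)) =
      {S | ∀ X ∈ BB (ℕ ⊕ I) (N ⊕ I), ∀ Y ∈ BB (ℕ ⊕ I) (N ⊕ I), ∀ u ∈ AA pt w,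
        ∀ v ∈ AA pt w, u * X * S * (Y * v) ∈ P} := rfl
  rw [h1]
  simp only [Set.setOf_forall]
  refine isClosed_iInter fun X => isClosed_iInter fun _ => isClosed_iInter fun Y =>
    isClosed_iInter fun _ => isClosed_iInter fun u => isClosed_iInter fun _ =>
    isClosed_iInter fun v => isClosed_iInter fun _ => ?_
  have hc : Continuous fun S : HH I N →L[ℂ] HH I N => u * X * S * (Y * v) :=
    (continuous_const.mul continuous_id).mul continuous_const
  exact hP.preimage hc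

theorem Kab_left {pt : N → Set (ℕ ⊕ I)} {w : N → ℝ} {P : Submodule ℂ (HH I N →L[ℂ] HH I N)}
    (X : HH I N →L[ℂ] HH I N) (hX : X ∈ BB (ℕ ⊕ I) (N ⊕ I)) (S : HH I N →L[ℂ] HH I N)
    (hS : S ∈ Kab pt w P) : X * S ∈ Kab pt w P := by
  intro X' hX' Y hY u hu v hv
  have h := hS (X' * X) (BB_mul hX' hX) Y hY u hu v hv
  rw [← mul_assoc u X' X, mul_assoc (u * X') X S] at h
  exact h

theorem Kab_right {pt : N → Set (ℕ ⊕ I)} {w : N → ℝ} {P : Submodule ℂ (HH I N →L[ℂ] HH I N)}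
    (X : HH I N →L[ℂ] HH I N) (hX : X ∈ BB (ℕ ⊕ I) (N ⊕ I)) (S : HH I N →L[ℂ] HH I N)
    (hS : S ∈ Kab pt w P) : S * X ∈ Kab pt w P := by
  intro X' hX' Y hY u hu v hv
  have h := hS X' hX' (X * Y) (BB_mul hX hY) u hu v hv
  rw [mul_assoc X Y v, ← mul_assoc (u * X' * S) X (Y * v), mul_assoc (u * X') S X] at h
  exact h

theorem ttt {A : Type} [NonUnitalCStarAlgebra A] {t : A} (h : star t * t * star t = 0) : t = 0 := by
  have h1 : star (star t * t) * (star t * t) = 0 := by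
    rw [star_mul, star_star, ← mul_assoc, h, zero_mul]
  have h2 := (CStarRing.star_mul_self_eq_zero_iff _).1 h1
  exact (CStarRing.star_mul_self_eq_zero_iff _).1 h2

theorem amb {pt : N → Set (ℕ ⊕ I)} {w : N → ℝ} {P : Submodule ℂ (HH I N →L[ℂ] HH I N)}
    (hP : IsClosed (P : Set (HH I N →L[ℂ] HH I N)))
    (hI : ∀ a ∈ AA pt w, ∀ x ∈ P, a * x ∈ P ∧ x * a ∈ P) {t : HH I N →L[ℂ] HH I N}
    (htP : t ∈ P) (htA : t ∈ AA pt w) (ht0 : t ≠ 0) : BB (ℕ ⊕ I) (N ⊕ I) ≤ Kab pt w P := by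
  have htA' : star t ∈ AA pt w := star_mem htA
  have hT : star t * t * star t ∈ Kab pt w P := by
    intro X hX Y hY u hu v hv
    have h1 : u * X * star t ∈ AA pt w := hered hu htA' hX
    have h2 : star t * Y * v ∈ AA pt w := hered htA' hv hY
    have h3 := (hI _ h2 _ (hI _ h1 _ htP).1).2
    have h4 : u * X * star t * t * (star t * Y * v) =
        u * X * (star t * t * star t) * (Y * v) := by simp only [mul_assoc]
    rw [← h4]
    exact h3
  have hT0 : star t * t * star t ≠ 0 := fun h => ht0 (ttt h)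
  have hTB : star t * t * star t ∈ BB (ℕ ⊕ I) (N ⊕ I) := BB_mul (BB_mul htA'.1 htA.1) htA'.1
  exact BB_simple (isClosed_Kab pt w hP) Kab_left Kab_right hTB hT hT0

theorem au_top {A : Type} [NonUnitalCStarAlgebra A] (K : Submodule ℂ A)
    (hK : IsClosed (K : Set A)) (h5 : ∀ R u X Y v : A, u * X * R * (Y * v) ∈ K) : K = ⊤ := by
  letI : PartialOrder A := CStarAlgebra.spectralOrder A
  haveI : StarOrderedRing A := CStarAlgebra.spectralOrderedRing A
  have hau := (CStarAlgebra.increasingApproximateUnit A).toIsApproximateUnit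
  haveI := hau.neBot
  have h6 : ∀ R X Y v : A, X * R * (Y * v) ∈ K := by
    intro R X Y v
    refine hK.mem_of_tendsto (hau.tendsto_mul_right (X * R * (Y * v)))
      (Filter.Eventually.of_forall fun u => ?_)
    have := h5 R u X Y v
    rwa [show u * (X * R * (Y * v)) = u * X * R * (Y * v) by simp only [mul_assoc]]
  have h7 : ∀ R Y v : A, R * (Y * v) ∈ K := by
    intro R Y v
    refine hK.mem_of_tendsto (hau.tendsto_mul_right (R * (Y * v)))
      (Filter.Eventually.of_forall fun X => ?_)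
    have := h6 R X Y v
    rwa [show X * (R * (Y * v)) = X * R * (Y * v) by simp only [mul_assoc]]
  have h8 : ∀ R Y : A, R * Y ∈ K := by
    intro R Y
    refine hK.mem_of_tendsto (hau.tendsto_mul_left (R * Y))
      (Filter.Eventually.of_forall fun v => ?_)
    have := h7 R Y v
    rwa [show R * Y * v = R * (Y * v) by simp only [mul_assoc]]
  refine Submodule.eq_top_iff'.2 fun R => ?_
  exact hK.mem_of_tendsto (hau.tendsto_mul_left R) (Filter.Eventually.of_forall fun Y => h8 R Y)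

end

end Pool.Agent.R237.ZS
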