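import Mathlib

/-!
# Simple C*-algebras and Z*-algebras
-/

set_option autoImplicit false

namespace Pool.Agent.R237.ZS

/-- A C*-algebra is simple if it is nonzero and its only closed two-sided ideals are `0` and the
whole algebra. -/
def IsSimpleAlg (A : Type) [NonUnitalCStarAlgebra A] : Prop :=
  (∃ a : A, a ≠ 0) ∧ ∀ K : Submodule ℂ A, IsClosed (K : Set A) →
    (∀ a : A, ∀ x ∈ K, a * x ∈ K ∧ x * a ∈ K) → K = ⊥ ∨ K = ⊤

/-- A C*-algebra is a Z*-algebra if every positive element (that is, every element `b* b`) is a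
zero divisor. -/
def IsZStar (A : Type) [NonUnitalCStarAlgebra A] : Prop :=
  ∀ b : A, ∃ y : A, y ≠ 0 ∧ (star b * b * y = 0 ∨ y * (star b * b) = 0)

end Pool.Agent.R237.ZS
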