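import Pool.Agent.R237.ZS.Alg

/-!
# The elements `y`, and simplicity of the algebra
-/

set_option autoImplicit false

open scoped InnerProductSpace ComplexConjugate symmDiff

namespace Pool.Agent.R237.ZS

noncomputable section

variable {I N : Type}

/-- The building blocks of `θ`. -/
def Tk (pt : N → Set (ℕ ⊕ I)) (i : I) (n : N) : HH I N →L[ℂ] HH I N :=
  W ∅ {Sum.inr i} (pt n ∆ {Sum.inr i}) (Sum.inl n) (Sum.inr i)

/-- The projection onto the `i`-th level. -/
def ei (N : Type) (i : I) : HH I N →L[ℂ] HH I N := W ∅ ∅ ∅ (Sum.inr i) (Sum.inr i)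

theorem agr_empty {J : Type} (x z : Set J) : Agr ∅ x z := fun j hj =>
  absurd hj (Finset.notMem_empty j)

open Classical in
theorem ei_dl (i : I) (x : Set (ℕ ⊕ I)) (k : N ⊕ I) :
    ei N i (dl (x, k)) = if k = Sum.inr i then dl (x, k) else 0 := by
  rw [ei, W_dl]
  by_cases h : k = Sum.inr i
  · rw [if_pos ⟨h, agr_empty _ _⟩, if_pos h, flip_empty', h]
  · rw [if_neg (fun h' => h h'.1), if_neg h]

theorem star_ei (i : I) : star (ei N i) = ei N i := by
  rw [ei, star_W, flip_empty']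

/-- `b` vanishes at level `i`. -/
theorem off {T : HH I N →L[ℂ] HH I N} {i : I}
    (h : ∀ (x : Set (ℕ ⊕ I)) (ω : Set (ℕ ⊕ I) × (N ⊕ I)),
      ent T (x, Sum.inr i) ω = 0 ∧ ent T ω (x, Sum.inr i) = 0) :
    T * ei N i = 0 ∧ ei N i * T = 0 := by
  classical
  have key : ∀ S : HH I N →L[ℂ] HH I N, (∀ (x : Set (ℕ ⊕ I)) (ω : Set (ℕ ⊕ I) × (N ⊕ I)),
      ent S ω (x, Sum.inr i) = 0) → S * ei N i = 0 := by
    intro S hS
    refine ext_dl fun ⟨x, k⟩ => ?_
    rw [mul_apply_eq_comp, ei_dl]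
    split_ifs with hk
    · subst hk
      ext ω
      exact hS x ω
    · rw [map_zero]; rfl
  refine ⟨key T fun x ω => (h x ω).2, ?_⟩
  have h2 : star T * ei N i = 0 := key _ fun x ω => by rw [ent_star, (h x ω).1, map_zero]
  have h3 := congrArg star h2
  rwa [star_mul, star_star, star_ei, star_zero] at h3

theorem exists_y {pt : N → Set (ℕ ⊕ I)} {w : N → ℝ} (hw0 : ∀ n, 0 < w n) {c : ℝ}
    (hws : HasSum w c) (hc : c ≤ 1 / 4) (i : I) :
    ∃ y ∈ AA pt w, 1 ≤ ‖y * y‖ ∧ ∀ b : HH I N →L[ℂ] HH I N, b * ei N i = 0 → ei N i * b = 0 →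
      ‖y * b * y‖ ≤ 1 / 8 * ‖b‖ := by
  classical
  have hsum : Summable fun n => (w n : ℂ) • Tk pt i n := by
    refine Summable.of_norm_bounded hws.summable fun n => ?_
    rw [norm_smul, Complex.norm_real, Real.norm_of_nonneg (hw0 n).le]
    calc w n * ‖Tk pt i n‖ ≤ w n * 1 := by
          gcongr
          · exact (hw0 n).le
          · exact norm_W_le _ _ _ _ _
      _ = w n := mul_one _
  set θ := ∑' n, (w n : ℂ) • Tk pt i n with hθ
  have hθn : ‖θ‖ ≤ 1 / 4 := by
    refine (tsum_of_norm_bounded hws fun n => ?_).trans hc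
    rw [norm_smul, Complex.norm_real, Real.norm_of_nonneg (hw0 n).le]
    calc w n * ‖Tk pt i n‖ ≤ w n * 1 := by
          gcongr
          · exact (hw0 n).le
          · exact norm_W_le _ _ _ _ _
      _ = w n := mul_one _
  have hθB : θ ∈ BB (ℕ ⊕ I) (N ⊕ I) := by
    refine isClosed_BB.mem_of_tendsto hsum.hasSum (Filter.Eventually.of_forall fun s => ?_)
    exact Submodule.sum_mem _ fun p _ => Submodule.smul_mem _ _ (W_mem _ _ _ _ _)
  have hθe : ∀ ω η, HasSum (fun n => (w n : ℂ) * ent (Tk pt i n) ω η) (ent θ ω η) := by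
    intro ω η
    have h1 : HasSum (fun n => ((w n : ℂ) • Tk pt i n) (dl η)) (θ (dl η)) :=
      hsum.hasSum.mapL (ContinuousLinearMap.apply ℂ _ (dl η))
    have h2 := h1.mapL (innerSL ℂ (dl ω : HH I N))
    simp only [innerSL_apply_apply, inner_dl] at h2
    exact h2
  -- entries of θ
  have hθ1 : ∀ (x y : Set (ℕ ⊕ I)) (n : N), ent θ (y, Sum.inl n) (x, Sum.inr i) =
      if Agr {Sum.inr i} x (pt n ∆ {Sum.inr i}) ∧ y = x then (w n : ℂ) else 0 := by
    intro x y n
    refine (hθe _ _).unique ?_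
    have : (if Agr {Sum.inr i} x (pt n ∆ {Sum.inr i}) ∧ y = x then (w n : ℂ) else 0) =
        (w n : ℂ) * ent (Tk pt i n) (y, Sum.inl n) (x, Sum.inr i) := by
      rw [Tk, ent_W, flip_empty']
      by_cases h : Agr {Sum.inr i} x (pt n ∆ {Sum.inr i}) ∧ y = x
      · rw [if_pos h, if_pos ⟨rfl, h.1, h.2, rfl⟩, mul_one]
      · rw [if_neg h, if_neg, mul_zero]
        rintro ⟨-, h1, h2, -⟩
        exact h ⟨h1, h2⟩
    rw [this]
    refine hasSum_single n fun m hm => ?_
    rw [Tk, ent_W, if_neg, mul_zero]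
    rintro ⟨-, -, -, h⟩
    exact hm (by simpa using h.symm)
  have hθ2 : ∀ (x y : Set (ℕ ⊕ I)) (j : I) (k : N ⊕ I),
      ent θ (y, Sum.inr j) (x, k) = 0 := by
    intro x y j k
    refine (hθe _ _).unique ?_
    convert hasSum_zero with n
    rw [Tk, ent_W, if_neg, mul_zero]
    rintro ⟨-, -, -, h⟩
    simp at h
  have hθ3 : ∀ (x : Set (ℕ ⊕ I)) (ω : Set (ℕ ⊕ I) × (N ⊕ I)) (k : N ⊕ I), k ≠ Sum.inr i →
      ent θ ω (x, k) = 0 := by
    intro x ω k hk
    obtain ⟨y, l⟩ := ω
    refine (hθe _ _).unique ?_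
    convert hasSum_zero with n
    rw [Tk, ent_W, if_neg, mul_zero]
    rintro ⟨h, -⟩
    exact hk h
  set z := ei N i + θ with hz
  have hzB : z ∈ BB (ℕ ⊕ I) (N ⊕ I) := Submodule.add_mem _ (W_mem _ _ _ _ _) hθB
  have hzn : ‖z‖ ≤ 5 / 4 := by
    refine (norm_add_le _ _).trans ?_
    have : ‖ei N i‖ ≤ 1 := norm_W_le _ _ _ _ _
    linarith
  have hzg : ∀ n j, (star z) (gv pt w n j) = 0 := by
    intro n j
    ext ⟨x, k⟩
    rw [star_apply_inner, gv, inner_sub_right, inner_smul_right, inner_dl_right,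
      inner_dl_right]
    by_cases hk : k = Sum.inr i
    · subst hk
      have h1 : (z (dl (x, Sum.inr i))) (spt pt n j, Sum.inl n) =
          if spt pt n j = x ∧ i = j then (w n : ℂ) else 0 := by
        change ent z (spt pt n j, Sum.inl n) (x, Sum.inr i) = _
        rw [hz, ent_add, hθ1]
        have h2 : ent (ei N i) (spt pt n j, Sum.inl n) (x, Sum.inr i) = 0 := by
          rw [ei, ent_W, if_neg]
          rintro ⟨-, -, -, h⟩
          simp at h
        rw [h2, zero_add]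
        refine if_congr ?_ rfl rfl
        constructor
        · rintro ⟨h3, h4⟩
          refine ⟨h4, ?_⟩
          rw [← h4] at h3
          have h5 := h3 (Sum.inr i) (Finset.mem_singleton_self _)
          simp only [spt, Set.mem_symmDiff, Set.mem_singleton_iff, Sum.inr.injEq] at h5
          by_contra hij
          simp only [hij, not_false_eq_true, and_true, false_and, or_false, not_true_eq_false,
            and_false, true_and, false_or] at h5
          tauto
        · rintro ⟨h3, rfl⟩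
          refine ⟨?_, h3⟩
          rw [← h3]
          exact Agr.refl _ _
      have h6 : (z (dl (x, Sum.inr i))) (spt pt n j, Sum.inr j) =
          if spt pt n j = x ∧ i = j then 1 else 0 := by
        change ent z (spt pt n j, Sum.inr j) (x, Sum.inr i) = _
        rw [hz, ent_add, hθ2, add_zero, ei, ent_W, flip_empty']
        by_cases h7 : spt pt n j = x ∧ i = j
        · rw [if_pos h7, if_pos]
          exact ⟨rfl, agr_empty _ _, h7.1, by rw [h7.2]⟩
        · rw [if_neg h7, if_neg]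
          rintro ⟨-, -, h3, h4⟩
          exact h7 ⟨h3, by simpa using h4.symm⟩
      rw [h1, h6]
      split_ifs <;> simp
    · have h1 : z (dl (x, k)) = 0 := by
        ext ω
        change ent z ω (x, k) = 0
        rw [hz, ent_add, hθ3 x ω k hk, add_zero]
        obtain ⟨y, l⟩ := ω
        rw [ei, ent_W, if_neg]
        rintro ⟨h, -⟩
        exact hk h
      rw [h1]
      simp
  set y := z * star z with hy
  have hys : star y = y := by rw [hy, star_mul, star_star]
  have hyA : y ∈ AA pt w := by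
    refine ⟨BB_mul hzB (BB_star hzB), fun n j => ?_⟩
    rw [hys]
    have : y (gv pt w n j) = 0 := by rw [hy, mul_apply_eq_comp, hzg, map_zero]
    exact ⟨this, this⟩
  refine ⟨y, hyA, ?_, ?_⟩
  · have h1 : 1 ≤ ‖z‖ := by
      have h2 := norm_ent_le z ((∅ : Set (ℕ ⊕ I)), Sum.inr i) ((∅ : Set (ℕ ⊕ I)), Sum.inr i)
      have h3 : ent z ((∅ : Set (ℕ ⊕ I)), Sum.inr i) ((∅ : Set (ℕ ⊕ I)), Sum.inr i) = 1 := by
        rw [hz, ent_add, hθ2, add_zero, ei, ent_W, if_pos]
        exact ⟨rfl, agr_empty _ _, (flip_empty' _).symm, rfl⟩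
      rw [h3] at h2
      simpa using h2
    have h4 : ‖y‖ = ‖z‖ * ‖z‖ := CStarRing.norm_self_mul_star
    have h5 : ‖y * y‖ = ‖y‖ * ‖y‖ := by
      conv_lhs => rw [← hys]
      nth_rewrite 2 [hys]
      rw [← CStarRing.norm_star_mul_self (x := y), hys]
    rw [h5, h4]
    nlinarith [mul_self_nonneg (‖z‖ * ‖z‖ - 1), mul_self_nonneg (‖z‖ - 1)]
  · intro b hb1 hb2
    have h1 : star z * b * z = star θ * b * θ := by
      rw [hz, star_add, star_ei, add_mul, hb2, zero_add, mul_add, mul_assoc (star θ) b (ei N i),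
        hb1, mul_zero, zero_add]
    have h2 : y * b * y = z * (star θ * b * θ) * star z := by
      rw [← h1, hy]; noncomm_ring
    rw [h2]
    have h34 : ∀ X : HH I N →L[ℂ] HH I N, ‖star X‖ = ‖X‖ := fun X => by
      rw [ContinuousLinearMap.star_eq_adjoint]
      exact LinearIsometryEquiv.norm_map _ _
    have h3 : ‖star θ‖ = ‖θ‖ := h34 _
    have h4 : ‖star z‖ = ‖z‖ := h34 _
    calc ‖z * (star θ * b * θ) * star z‖ ≤ ‖z * (star θ * b * θ)‖ * ‖star z‖ := norm_mul_le _ _
      _ ≤ (‖z‖ * ‖star θ * b * θ‖) * ‖star z‖ := by gcongr; exact norm_mul_le _ _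
      _ ≤ (‖z‖ * (‖star θ * b‖ * ‖θ‖)) * ‖star z‖ := by gcongr; exact norm_mul_le _ _
      _ ≤ (‖z‖ * ((‖star θ‖ * ‖b‖) * ‖θ‖)) * ‖star z‖ := by gcongr; exact norm_mul_le _ _
      _ = (‖z‖ * ‖z‖) * (‖θ‖ * ‖θ‖) * ‖b‖ := by rw [h3, h4]; ring
      _ ≤ (5 / 4 * (5 / 4)) * (1 / 4 * (1 / 4)) * ‖b‖ := by gcongr
      _ ≤ 1 / 8 * ‖b‖ := by
        have := norm_nonneg b
        nlinarith

end

end Pool.Agent.R237.ZS
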