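import Pool.Agent.R237.ZS.Op

/-!
# A simple algebra of operators on `ℓ²(Set J × M)`
-/

set_option autoImplicit false

open scoped InnerProductSpace ComplexConjugate symmDiff

namespace Pool.Agent.R237.ZS

noncomputable section

variable {J M : Type}

/-- `x` and `z` agree on `G`. -/
def Agr (G : Finset J) (x z : Set J) : Prop := ∀ j ∈ G, (j ∈ x ↔ j ∈ z)

theorem Agr.refl (G : Finset J) (x : Set J) : Agr G x x := fun _ _ => Iff.rfl

theorem Agr.symm {G : Finset J} {x z : Set J} (h : Agr G x z) : Agr G z x :=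
  fun j hj => (h j hj).symm

theorem Agr.trans {G : Finset J} {x y z : Set J} (h : Agr G x y) (h' : Agr G y z) : Agr G x z :=
  fun j hj => (h j hj).trans (h' j hj)

theorem Agr.mono {G G' : Finset J} (hG : G ⊆ G') {x z : Set J} (h : Agr G' x z) : Agr G x z :=
  fun j hj => h j (hG hj)

theorem Agr.flip {G : Finset J} {x z : Set J} (h : Agr G x z) (F : Set J) :
    Agr G (x ∆ F) (z ∆ F) := by
  intro j hj
  have := h j hj
  simp only [Set.mem_symmDiff]
  tauto

theorem Agr.flip_iff {G : Finset J} {x z : Set J} (F : Set J) :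
    Agr G (x ∆ F) (z ∆ F) ↔ Agr G x z := by
  refine ⟨fun h => ?_, fun h => h.flip F⟩
  have := h.flip F
  simpa [symmDiff_assoc] using this

theorem flip_flip (x F : Set J) : (x ∆ F) ∆ F = x := by
  rw [symmDiff_assoc, symmDiff_self, Set.bot_eq_empty]
  exact symmDiff_bot x

theorem flip_eq_iff (x y F : Set J) : x ∆ F = y ↔ x = y ∆ F :=
  ⟨fun h => by rw [← h, flip_flip], fun h => by rw [h, flip_flip]⟩

theorem wgen_inj (F : Finset J) (m m' : M) (D : Set (Set J × M)) (hD : ∀ p ∈ D, p.2 = m) :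
    Set.InjOn (fun p : Set J × M => (p.1 ∆ (F : Set J), m')) D := by
  rintro ⟨x, k⟩ hx ⟨y, l⟩ hy hxy
  have h1 : x ∆ (F : Set J) = y ∆ (F : Set J) := congrArg Prod.fst hxy
  have h2 := hD _ hx
  have h3 := hD _ hy
  simp only at h2 h3
  rw [h2, h3, symmDiff_left_injective _ h1]

/-- The domain of the generator. -/
def wdom (F G : Finset J) (z : Set J) (m : M) : Set (Set J × M) :=
  {p | p.2 = m ∧ Agr G (p.1 ∆ (F : Set J)) z}

/-- The generators: partial isometries `(x, m') ↦ (x ∆ F, m)` on the cylinder of `z`. -/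
def W (F G : Finset J) (z : Set J) (m m' : M) : HE (Set J × M) →L[ℂ] HE (Set J × M) :=
  pull (fun p : Set J × M => (p.1 ∆ (F : Set J), m')) (wdom F G z m)
    (wgen_inj F m m' _ fun _ hp => hp.1)

open Classical in
theorem W_dl (F G : Finset J) (z : Set J) (m m' : M) (x : Set J) (k : M) :
    W F G z m m' (dl (x, k)) = if k = m' ∧ Agr G x z then dl (x ∆ (F : Set J), m) else 0 := by
  ext ⟨y, l⟩
  rw [W, pull_apply]
  by_cases h : (k = m' ∧ Agr G x z)
  · rw [if_pos h, dl_apply, dl_apply]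
    obtain ⟨rfl, h2⟩ := h
    by_cases hy : (y, l) = (x ∆ (F : Set J), m)
    · rw [if_pos hy]
      obtain ⟨rfl, rfl⟩ := Prod.mk.inj hy
      rw [if_pos, if_pos]
      · simp [flip_flip]
      · exact ⟨rfl, by simpa [flip_flip] using h2⟩
    · rw [if_neg hy]
      split_ifs with h3 h4
      · exfalso
        apply hy
        obtain ⟨h5, h6⟩ := h3
        simp only [Prod.mk.injEq, and_true] at h4 h5
        rw [← (flip_eq_iff _ _ _).1 h4, h5]
      · rfl
      · rfl
  · rw [if_neg h]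
    split_ifs with h3
    · rw [dl_apply, if_neg]
      · rfl
      intro h4
      apply h
      obtain ⟨h5, h6⟩ := h3
      simp only [Prod.mk.injEq] at h4 h6
      exact ⟨h4.2.symm, h4.1 ▸ h6⟩
    · rfl

open Classical in
theorem ent_W (F G : Finset J) (z : Set J) (m m' : M) (y x : Set J) (l k : M) :
    ent (W F G z m m') (y, l) (x, k) =
      if k = m' ∧ Agr G x z ∧ y = x ∆ (F : Set J) ∧ l = m then 1 else 0 := by
  rw [ent, W_dl]
  split_ifs with h1 h2 h2
  · rw [dl_apply, if_pos]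
    rw [h2.2.2.1, h2.2.2.2]
  · rw [dl_apply, if_neg]
    intro h3
    obtain ⟨rfl, rfl⟩ := Prod.mk.inj h3
    exact h2 ⟨h1.1, h1.2, rfl, rfl⟩
  · exact absurd ⟨h2.1, h2.2.1⟩ h1
  · rfl

theorem norm_W_le (F G : Finset J) (z : Set J) (m m' : M) : ‖W F G z m m'‖ ≤ 1 :=
  norm_pull_le _ _ _

theorem star_W (F G : Finset J) (z : Set J) (m m' : M) :
    star (W F G z m m') = W F G (z ∆ (F : Set J)) m' m := by
  classical
  refine ext_ent fun ⟨y, l⟩ ⟨x, k⟩ => ?_
  rw [ent_star, ent_W, ent_W]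
  have : (l = m' ∧ Agr G y z ∧ x = y ∆ (F : Set J) ∧ k = m) ↔
      (k = m ∧ Agr G x (z ∆ (F : Set J)) ∧ y = x ∆ (F : Set J) ∧ l = m') := by
    constructor
    · rintro ⟨rfl, h, rfl, rfl⟩
      exact ⟨rfl, h.flip _, by rw [flip_flip], rfl⟩
    · rintro ⟨rfl, h, rfl, rfl⟩
      refine ⟨rfl, ?_, by rw [flip_flip], rfl⟩
      have := h.flip (F : Set J)
      rwa [flip_flip] at this
  rw [if_congr this rfl rfl]
  split_ifs <;> simp

/-- The set of generators. -/
def gens (J M : Type) : Set (HE (Set J × M) →L[ℂ] HE (Set J × M)) :=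
  {T | ∃ F G z m m', T = W F G z m m'}

open Classical in
theorem W_mul_W (F G : Finset J) (z : Set J) (m m' : M) (F' G' : Finset J) (z' : Set J)
    (k k' : M) :
    W F G z m m' * W F' G' z' k k' = 0 ∨ W F G z m m' * W F' G' z' k k' ∈ gens J M := by
  by_cases hk : k = m'
  · subst hk
    by_cases hC : ∃ x : Set J, Agr G' x z' ∧ Agr G (x ∆ (F' : Set J)) z
    · right
      obtain ⟨y, hy1, hy2⟩ := hC
      refine ⟨F' ∆ F, G ∪ G', y, m, k', ?_⟩
      refine ext_dl fun ⟨x, l⟩ => ?_
      rw [mul_apply_eq_comp, W_dl, W_dl]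
      by_cases h : l = k' ∧ Agr (G ∪ G') x y
      · rw [if_pos h, if_pos, W_dl, if_pos]
        · rw [symmDiff_assoc, Finset.coe_symmDiff]
        · exact ⟨rfl, ((h.2.mono Finset.subset_union_left).flip _).trans hy2⟩
        · exact ⟨h.1, (h.2.mono Finset.subset_union_right).trans hy1⟩
      · rw [if_neg h]
        split_ifs with h2
        · rw [W_dl, if_neg]
          rintro ⟨-, h3⟩
          apply h
          refine ⟨h2.1, fun j hj => ?_⟩
          rcases Finset.mem_union.1 hj with hj | hj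
          · exact (Agr.flip_iff _).1 (h3.trans hy2.symm) j hj
          · exact (h2.2.trans hy1.symm) j hj
        · rw [map_zero]
    · left
      refine ext_dl fun ⟨x, l⟩ => ?_
      rw [mul_apply_eq_comp, W_dl]
      split_ifs with h2
      · rw [W_dl, if_neg]
        · rfl
        rintro ⟨-, h3⟩
        exact hC ⟨x, h2.2, h3⟩
      · rw [map_zero]; rfl
  · left
    refine ext_dl fun ⟨x, l⟩ => ?_
    rw [mul_apply_eq_comp, W_dl]
    split_ifs with h2
    · rw [W_dl, if_neg]
      · rfl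
      rintro ⟨h3, -⟩
      exact hk h3
    · rw [map_zero]; rfl

/-- The algebraic span. -/
def B0 (J M : Type) : Submodule ℂ (HE (Set J × M) →L[ℂ] HE (Set J × M)) :=
  Submodule.span ℂ (gens J M)

/-- The norm closure. -/
def BB (J M : Type) : Submodule ℂ (HE (Set J × M) →L[ℂ] HE (Set J × M)) :=
  (B0 J M).topologicalClosure

theorem W_mem0 (F G : Finset J) (z : Set J) (m m' : M) : W F G z m m' ∈ B0 J M :=
  Submodule.subset_span ⟨F, G, z, m, m', rfl⟩

theorem W_mem (F G : Finset J) (z : Set J) (m m' : M) : W F G z m m' ∈ BB J M :=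
  Submodule.le_topologicalClosure _ (W_mem0 F G z m m')

theorem B0_mul {T S : HE (Set J × M) →L[ℂ] HE (Set J × M)} (hT : T ∈ B0 J M)
    (hS : S ∈ B0 J M) : T * S ∈ B0 J M := by
  refine Submodule.span_induction (p := fun T _ => T * S ∈ B0 J M) ?_ ?_ ?_ ?_ hT
  · rintro _ ⟨F, G, z, m, m', rfl⟩
    refine Submodule.span_induction (p := fun S _ => W F G z m m' * S ∈ B0 J M) ?_ ?_ ?_ ?_ hS
    · rintro _ ⟨F', G', z', k, k', rfl⟩
      rcases W_mul_W F G z m m' F' G' z' k k' with h | h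
      · rw [h]; exact Submodule.zero_mem _
      · exact Submodule.subset_span h
    · rw [mul_zero]; exact Submodule.zero_mem _
    · intro A B _ _ hA hB
      rw [mul_add]; exact Submodule.add_mem _ hA hB
    · intro c A _ hA
      rw [mul_smul_comm]; exact Submodule.smul_mem _ _ hA
  · rw [zero_mul]; exact Submodule.zero_mem _
  · intro A B _ _ hA hB
    rw [add_mul]; exact Submodule.add_mem _ hA hB
  · intro c A _ hA
    rw [smul_mul_assoc]; exact Submodule.smul_mem _ _ hA

theorem B0_star {T : HE (Set J × M) →L[ℂ] HE (Set J × M)} (hT : T ∈ B0 J M) :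
    star T ∈ B0 J M := by
  refine Submodule.span_induction (p := fun T _ => star T ∈ B0 J M) ?_ ?_ ?_ ?_ hT
  · rintro _ ⟨F, G, z, m, m', rfl⟩
    rw [star_W]
    exact W_mem0 _ _ _ _ _
  · rw [star_zero]; exact Submodule.zero_mem _
  · intro A B _ _ hA hB
    rw [star_add]; exact Submodule.add_mem _ hA hB
  · intro c A _ hA
    rw [star_smul]; exact Submodule.smul_mem _ _ hA

theorem mem_BB {T : HE (Set J × M) →L[ℂ] HE (Set J × M)} :
    T ∈ BB J M ↔ T ∈ closure (B0 J M : Set (HE (Set J × M) →L[ℂ] HE (Set J × M))) := by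
  rw [← SetLike.mem_coe, BB, Submodule.topologicalClosure_coe]

theorem isClosed_BB : IsClosed (BB J M : Set (HE (Set J × M) →L[ℂ] HE (Set J × M))) :=
  Submodule.isClosed_topologicalClosure _

theorem BB_mul {T S : HE (Set J × M) →L[ℂ] HE (Set J × M)} (hT : T ∈ BB J M)
    (hS : S ∈ BB J M) : T * S ∈ BB J M := by
  rw [mem_BB] at *
  exact map_mem_closure₂ continuous_mul hT hS fun a ha b hb => B0_mul ha hb

theorem BB_star {T : HE (Set J × M) →L[ℂ] HE (Set J × M)} (hT : T ∈ BB J M) :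
    star T ∈ BB J M := by
  rw [mem_BB] at *
  exact map_mem_closure continuous_star hT fun a ha => B0_star ha

theorem approx {T : HE (Set J × M) →L[ℂ] HE (Set J × M)} (hT : T ∈ BB J M) {ε : ℝ}
    (hε : 0 < ε) : ∃ S ∈ B0 J M, ‖T - S‖ < ε := by
  rw [mem_BB, Metric.mem_closure_iff] at hT
  obtain ⟨S, hS, h⟩ := hT ε hε
  exact ⟨S, hS, by rwa [dist_eq_norm] at h⟩

end

end Pool.Agent.R237.ZS
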