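import Mathlib

/-!
# Powers of `1 - D* D`
-/

set_option autoImplicit false

open scoped InnerProductSpace ComplexConjugate

namespace Pool.Agent.R237.ZS

noncomputable section

/-! ### Operators on a Hilbert space -/

section Hilbert

universe u

variable {H : Type u} [NormedAddCommGroup H] [InnerProductSpace ℂ H] [CompleteSpace H]

theorem norm_sq_step {D : H →L[ℂ] H} (hD : ‖D‖ ≤ 1) (v : H) :
    ‖(1 - star D * D) v‖ ^ 2 ≤ ‖v‖ ^ 2 - ‖D v‖ ^ 2 := by
  have h1 : (1 - star D * D) v = v - (star D * D) v := rfl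
  have h2 : ⟪v, (star D * D) v⟫_ℂ = (‖D v‖ ^ 2 : ℝ) := by
    rw [mul_apply_eq_comp, ContinuousLinearMap.star_eq_adjoint,
      ContinuousLinearMap.adjoint_inner_right, inner_self_eq_norm_sq_to_K]
    norm_cast
  have h3 : ‖(star D * D) v‖ ≤ ‖D v‖ := by
    rw [mul_apply_eq_comp]
    have h4 : ‖star D‖ ≤ 1 := by
      rw [ContinuousLinearMap.star_eq_adjoint, LinearIsometryEquiv.norm_map]
      exact hD
    calc ‖(star D) (D v)‖ ≤ ‖star D‖ * ‖D v‖ := ContinuousLinearMap.le_opNorm _ _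
      _ ≤ 1 * ‖D v‖ := by gcongr
      _ = ‖D v‖ := one_mul _
  rw [h1, norm_sub_sq (𝕜 := ℂ), h2]
  have h5 : ‖(star D * D) v‖ ^ 2 ≤ ‖D v‖ ^ 2 := by gcongr
  simp only [RCLike.re_to_complex, Complex.ofReal_re]
  linarith

theorem norm_one_sub_le {D : H →L[ℂ] H} (hD : ‖D‖ ≤ 1) : ‖1 - star D * D‖ ≤ 1 := by
  refine ContinuousLinearMap.opNorm_le_bound _ zero_le_one fun v => ?_
  rw [one_mul]
  refine le_of_sq_le_sq ?_ (norm_nonneg _)
  have := norm_sq_step hD v
  linarith [sq_nonneg ‖D v‖]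

theorem pow_tendsto {D : H →L[ℂ] H} (hD : ‖D‖ ≤ 1) (hinj : ∀ v, D v = 0 → v = 0) (v : H) :
    Filter.Tendsto (fun n : ℕ => ((1 - star D * D) ^ n) v) Filter.atTop (nhds 0) := by
  set S := 1 - star D * D with hS
  have hpow : ∀ n : ℕ, ‖S ^ n‖ ≤ 1 := by
    intro n
    induction n with
    | zero => rw [pow_zero]; exact ContinuousLinearMap.norm_id_le
    | succ n ih =>
      rw [pow_succ]
      calc ‖S ^ n * S‖ ≤ ‖S ^ n‖ * ‖S‖ := norm_mul_le _ _
        _ ≤ 1 * 1 := by gcongr; exact norm_one_sub_le hD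
        _ = 1 := one_mul _
  -- `D S^n v → 0`
  have h1 : ∀ v : H, Filter.Tendsto (fun n : ℕ => ‖D ((S ^ n) v)‖ ^ 2) Filter.atTop (nhds 0) := by
    intro v
    have hsum : Summable fun n : ℕ => ‖D ((S ^ n) v)‖ ^ 2 := by
      refine summable_of_sum_range_le (c := ‖v‖ ^ 2) (fun _ => sq_nonneg _) fun n => ?_
      have h2 : ∀ n : ℕ, ∑ i ∈ Finset.range n, ‖D ((S ^ i) v)‖ ^ 2 ≤
          ‖v‖ ^ 2 - ‖(S ^ n) v‖ ^ 2 := by
        intro n
        induction n with
        | zero => simp
        | succ n ih =>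
          rw [Finset.sum_range_succ]
          have h3 := norm_sq_step hD ((S ^ n) v)
          rw [← hS] at h3
          have h4 : (S ^ (n + 1)) v = S ((S ^ n) v) := by rw [pow_succ']; rfl
          rw [h4]
          linarith
      have := h2 n
      linarith [sq_nonneg ‖(S ^ n) v‖]
    exact hsum.tendsto_atTop_zero
  -- convergence on the range of `star D * D`
  have h2 : ∀ u : H, Filter.Tendsto (fun n : ℕ => (S ^ n) ((star D * D) u)) Filter.atTop
      (nhds 0) := by
    intro u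
    have hcomm : ∀ n : ℕ, S ^ n * (star D * D) = (star D * D) * S ^ n := by
      intro n
      have : Commute S (star D * D) := by
        rw [hS]; exact (Commute.one_left _).sub_left (Commute.refl _)
      exact (this.pow_left n)
    have h3 : ∀ n : ℕ, (S ^ n) ((star D * D) u) = (star D) (D ((S ^ n) u)) := by
      intro n
      have := congrArg (fun T : H →L[ℂ] H => T u) (hcomm n)
      exact this
    simp_rw [h3]
    have h4 : Filter.Tendsto (fun n : ℕ => D ((S ^ n) u)) Filter.atTop (nhds 0) := by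
      rw [tendsto_zero_iff_norm_tendsto_zero]
      have := (h1 u).sqrt
      simpa [Real.sqrt_sq (norm_nonneg _)] using this
    have h5 := ((star D).continuous.tendsto 0).comp h4
    rw [map_zero] at h5
    exact h5
  -- density
  have hdense : Dense (Set.range (star D * D)) := by
    have h3 : (LinearMap.range ((star D * D : H →L[ℂ] H) : H →ₗ[ℂ] H))ᗮ = ⊥ := by
      rw [Submodule.eq_bot_iff]
      intro x hx
      rw [Submodule.mem_orthogonal] at hx
      have h4 := hx _ ⟨x, rfl⟩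
      apply hinj
      have h5 : ⟪(star D * D) x, x⟫_ℂ = (‖D x‖ ^ 2 : ℝ) := by
        rw [mul_apply_eq_comp, ContinuousLinearMap.star_eq_adjoint,
          ContinuousLinearMap.adjoint_inner_left, inner_self_eq_norm_sq_to_K]
        norm_cast
      have h6 : ⟪(star D * D) x, x⟫_ℂ = 0 := h4
      rw [h5] at h6
      have h7 : ‖D x‖ ^ 2 = 0 := by exact_mod_cast h6
      simpa using h7
    have h4 := (Submodule.topologicalClosure_eq_top_iff
      (K := LinearMap.range ((star D * D : H →L[ℂ] H) : H →ₗ[ℂ] H))).2 h3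
    have h5 := (Submodule.dense_iff_topologicalClosure_eq_top).2 h4
    exact h5
  rw [Metric.tendsto_atTop]
  intro ε hε
  obtain ⟨_, ⟨u, rfl⟩, hu⟩ := Metric.mem_closure_iff.1 (hdense v) (ε / 2) (half_pos hε)
  obtain ⟨n0, hn0⟩ := (Metric.tendsto_atTop.1 (h2 u)) (ε / 2) (half_pos hε)
  refine ⟨n0, fun n hn => ?_⟩
  have h3 := hn0 n hn
  rw [dist_zero_right] at h3 ⊢
  have h4 : (S ^ n) v = (S ^ n) (v - (star D * D) u) + (S ^ n) ((star D * D) u) := by
    rw [← map_add, sub_add_cancel]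
  rw [h4]
  have h5 : ‖(S ^ n) (v - (star D * D) u)‖ ≤ 1 * ‖v - (star D * D) u‖ :=
    (ContinuousLinearMap.le_opNorm _ _).trans (by gcongr; exact hpow n)
  rw [dist_eq_norm] at hu
  calc _ ≤ ‖(S ^ n) (v - (star D * D) u)‖ + ‖(S ^ n) ((star D * D) u)‖ := norm_add_le _ _
    _ < ε / 2 + ε / 2 := by linarith
    _ = ε := add_halves _

end Hilbert

end

end Pool.Agent.R237.ZS
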