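import Pool.Agent.R237.ZS.Amb
import Pool.Agent.R237.ZS.Hil
import Pool.Agent.R237.ZS.Defs

/-!
# Simplicity of the algebra and its representations, abstract form
-/

set_option autoImplicit false

open scoped InnerProductSpace ComplexConjugate symmDiff

namespace Pool.Agent.R237.ZS

noncomputable section

variable {I N : Type}

theorem alg_id {R : Type*} [Ring R] (s q : R) :
    1 - q + s - s * (1 - q) = 1 - (1 - s) * q := by
  rw [mul_sub, sub_mul, mul_one, one_mul]
  abel

/-- An isometric `*`-isomorphism onto the concrete algebra. -/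
structure Emb (A : Type) [NonUnitalCStarAlgebra A] (pt : N → Set (ℕ ⊕ I)) (w : N → ℝ) where
  /-- the map -/
  i : A → (HH I N →L[ℂ] HH I N)
  add : ∀ a b, i (a + b) = i a + i b
  smul : ∀ (c : ℂ) a, i (c • a) = c • i a
  mul : ∀ a b, i (a * b) = i a * i b
  star : ∀ a, i (star a) = star (i a)
  norm : ∀ a, ‖i a‖ = ‖a‖
  mem : ∀ a, i a ∈ AA pt w
  surj : ∀ T ∈ AA pt w, ∃ a, i a = T

namespace Emb

variable {A : Type} [NonUnitalCStarAlgebra A] {pt : N → Set (ℕ ⊕ I)} {w : N → ℝ}
  (e : Emb A pt w)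

include e

theorem zero : e.i 0 = 0 := by
  have := e.smul 0 0
  rwa [zero_smul, zero_smul] at this

theorem sub (a b : A) : e.i (a - b) = e.i a - e.i b := by
  have h := e.add (a - b) b
  rw [sub_add_cancel] at h
  rw [h, add_sub_cancel_right]

theorem eq_zero {a : A} (h : e.i a = 0) : a = 0 := by
  rw [← norm_eq_zero, ← e.norm, h, norm_zero]

theorem inj {a b : A} (h : e.i a = e.i b) : a = b := by
  rw [← sub_eq_zero]
  exact e.eq_zero (by rw [e.sub, h, sub_self])

theorem isometry : Isometry e.i := by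
  refine Isometry.of_dist_eq fun a b => ?_
  rw [dist_eq_norm, dist_eq_norm, ← e.sub, e.norm]

theorem simple (hne : ∃ a : A, a ≠ 0) : IsSimpleAlg A := by
  refine ⟨hne, fun K hK hI => ?_⟩
  by_cases hb : K = ⊥
  · exact Or.inl hb
  right
  obtain ⟨t, htK, ht0⟩ := (Submodule.ne_bot_iff K).1 hb
  let P : Submodule ℂ (HH I N →L[ℂ] HH I N) :=
    { carrier := {S | ∃ k : A, k ∈ K ∧ e.i k = S}
      add_mem' := by
        rintro _ _ ⟨k, hk, rfl⟩ ⟨l, hl, rfl⟩
        exact ⟨k + l, K.add_mem hk hl, e.add _ _⟩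
      zero_mem' := ⟨0, K.zero_mem, e.zero⟩
      smul_mem' := by
        rintro c _ ⟨k, hk, rfl⟩
        exact ⟨c • k, K.smul_mem c hk, e.smul _ _⟩ }
  have hmem : ∀ S, S ∈ P ↔ ∃ k : A, k ∈ K ∧ e.i k = S := fun S => Iff.rfl
  have hPc : IsClosed (P : Set (HH I N →L[ℂ] HH I N)) := by
    have h1 : (P : Set (HH I N →L[ℂ] HH I N)) = e.i '' (K : Set A) := rfl
    rw [h1]
    exact e.isometry.isClosedEmbedding.isClosedMap _ hK
  have hPI : ∀ a ∈ AA pt w, ∀ x ∈ P, a * x ∈ P ∧ x * a ∈ P := by
    intro a ha x hx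
    obtain ⟨a', rfl⟩ := e.surj a ha
    obtain ⟨k, hk, rfl⟩ := hx
    exact ⟨⟨a' * k, (hI a' k hk).1, e.mul _ _⟩, ⟨k * a', (hI a' k hk).2, e.mul _ _⟩⟩
  have hall := amb hPc hPI (t := e.i t) ⟨t, htK, rfl⟩ (e.mem t) (fun h => ht0 (e.eq_zero h))
  refine au_top K hK fun R u X Y v => ?_
  obtain ⟨k, hk, hk'⟩ := hall (e.mem R).1 (e.i X) (e.mem X).1 (e.i Y) (e.mem Y).1 (e.i u)
    (e.mem u) (e.i v) (e.mem v)
  have h1 : k = u * X * R * (Y * v) := e.inj (by
    rw [hk', e.mul, e.mul, e.mul, e.mul])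
  rwa [← h1]

theorem not_zstar {a : HH I N →L[ℂ] HH I N} (ha : a ∈ AA pt w) (hs : Star.star a = a)
    (hdiv : ∀ T ∈ AA pt w, a * T = 0 → T = 0) : ¬ IsZStar A := by
  intro hZ
  obtain ⟨b, hb⟩ := e.surj a ha
  have hbs : Star.star b = b := e.inj (by rw [e.star, hb, hs])
  have hbd : ∀ y : A, b * y = 0 → y = 0 := by
    intro y hy
    refine e.eq_zero (hdiv _ (e.mem y) ?_)
    rw [← hb, ← e.mul, hy, e.zero]
  have hbb : ∀ y : A, Star.star b * b * y = 0 → y = 0 := by
    intro y hy
    rw [hbs, mul_assoc] at hy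
    exact hbd _ (hbd _ hy)
  obtain ⟨y, hy0, hy | hy⟩ := hZ b
  · exact hy0 (hbb y hy)
  · apply hy0
    have h1 : Star.star b * b * Star.star y = 0 := by
      have := congrArg Star.star hy
      rwa [star_mul, star_mul, star_star, star_zero] at this
    have h2 := hbb _ h1
    rwa [star_eq_zero] at h2

theorem rep [Uncountable I] (hA : IsSimpleAlg A) (hw0 : ∀ n, 0 < w n) {c : ℝ}
    (hws : HasSum w c) (hc : c ≤ 1 / 4) [Countable N] {H : Type*} [NormedAddCommGroup H]
    [InnerProductSpace ℂ H] [CompleteSpace H] [Nontrivial H] (π : A →⋆ₙₐ[ℂ] (H →L[ℂ] H))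
    (a : A) : ∃ v : H, v ≠ 0 ∧ π a v = 0 := by
  by_contra hcon
  push Not at hcon
  have hinj : ∀ v : H, π a v = 0 → v = 0 := fun v hv => by
    by_contra h
    exact hcon v h hv
  have hπ0 : π a ≠ 0 := by
    intro h
    obtain ⟨v, hv⟩ := exists_ne (0 : H)
    exact hv (hinj v (by rw [h]; rfl))
  have ha0 : a ≠ 0 := by
    rintro rfl
    exact hπ0 (map_zero π)
  have han : ‖a‖ ≠ 0 := norm_ne_zero_iff.2 ha0
  have hle : ∀ x : A, ‖π x‖ ≤ ‖x‖ := fun x => NonUnitalStarAlgHom.norm_apply_le π x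
  -- `π` is injective
  have hπi : Function.Injective π := by
    set K : Submodule ℂ A :=
      { carrier := {x | π x = 0}
        add_mem' := fun {x y} hx hy => by
          change π (x + y) = 0
          rw [map_add]
          have h1 : π x = 0 := hx
          have h2 : π y = 0 := hy
          rw [h1, h2, add_zero]
        zero_mem' := map_zero π
        smul_mem' := fun c x hx => by
          change π (c • x) = 0
          rw [map_smul]
          have h1 : π x = 0 := hx
          rw [h1, smul_zero] } with hK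
    have hmem : ∀ x, x ∈ K ↔ π x = 0 := fun x => Iff.rfl
    have hcont : Continuous π :=
      AddMonoidHomClass.continuous_of_bound π 1 (fun x => by rw [one_mul]; exact hle x)
    have hcl : IsClosed (K : Set A) := isClosed_eq hcont continuous_const
    rcases hA.2 K hcl (fun x y hy => by
      rw [hmem] at hy
      rw [hmem, hmem, map_mul, map_mul, hy, mul_zero, zero_mul]
      exact ⟨rfl, rfl⟩) with h | h
    · rw [injective_iff_map_eq_zero]
      intro x hx
      have : x ∈ K := hx
      rw [h] at this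
      exact (Submodule.mem_bot ℂ).1 this
    · exfalso
      have : a ∈ K := by rw [h]; trivial
      exact hπ0 this
  -- an index away from the support of `a`
  obtain ⟨S, hSc, hS⟩ := cnt (e.mem a).1
  obtain ⟨i, hi⟩ : ∃ i : I, Sum.inr i ∉ S := by
    by_contra hcon2
    push Not at hcon2
    have h1 : (Sum.inr ⁻¹' S : Set I).Countable := hSc.preimage Sum.inr_injective
    have h2 : (Sum.inr ⁻¹' S : Set I) = Set.univ := Set.eq_univ_of_forall hcon2
    rw [h2] at h1
    exact Set.not_countable_univ h1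
  have hoff := off (T := e.i a) (i := i) (fun x ω => hS _ hi x ω)
  obtain ⟨y, hyA, hy1, hy2⟩ := exists_y (pt := pt) hw0 hws hc i
  obtain ⟨y', rfl⟩ := e.surj y hyA
  -- the approximate unit of `a`
  set d : A := ((‖a‖⁻¹ : ℝ) : ℂ) • a with hd
  have hdn : ‖d‖ ≤ 1 := by
    rw [hd, norm_smul, Complex.norm_real, norm_inv, norm_norm, inv_mul_cancel₀ han]
  have hdoff : e.i d * ei N i = 0 ∧ ei N i * e.i d = 0 := by
    rw [hd, e.smul, smul_mul_assoc, mul_smul_comm, hoff.1, hoff.2, smul_zero]
    exact ⟨rfl, rfl⟩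
  set c' : A := Star.star d * d with hc'
  have hc'off : e.i c' * ei N i = 0 ∧ ei N i * e.i c' = 0 := by
    have h1 : ei N i * Star.star (e.i d) = 0 := by
      have := congrArg Star.star hdoff.1
      rwa [star_mul, star_ei, star_zero] at this
    rw [hc', e.mul, e.star]
    constructor
    · rw [mul_assoc, hdoff.1, mul_zero]
    · rw [← mul_assoc, h1, zero_mul]
  let u : ℕ → A := fun n => Nat.rec 0 (fun _ x => x + c' - c' * x) n
  have hu0 : u 0 = 0 := rfl
  have hu1 : ∀ n, u (n + 1) = u n + c' - c' * u n := fun n => rfl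
  have huoff : ∀ n, e.i (u n) * ei N i = 0 ∧ ei N i * e.i (u n) = 0 := by
    intro n
    induction n with
    | zero => rw [hu0, e.zero, zero_mul, mul_zero]; exact ⟨rfl, rfl⟩
    | succ n ih =>
      rw [hu1, e.sub, e.add, e.mul c' (u n)]
      constructor
      · rw [sub_mul, add_mul, ih.1, hc'off.1, mul_assoc, ih.1, mul_zero]; simp
      · rw [mul_sub, mul_add, ih.2, hc'off.2, ← mul_assoc, hc'off.2, zero_mul]; simp
  have huamb : ∀ n, e.i (u n) = 1 - (1 - Star.star (e.i d) * e.i d) ^ n := by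
    intro n
    induction n with
    | zero => rw [hu0, e.zero, pow_zero, sub_self]
    | succ n ih =>
      have h1 : e.i (u (n + 1)) = e.i (u n) + e.i c' - e.i c' * e.i (u n) := by
        rw [hu1, e.sub, e.add, e.mul c' (u n)]
      have h2 : e.i c' = Star.star (e.i d) * e.i d := by rw [hc', e.mul, e.star]
      rw [h1, h2, ih, pow_succ']
      exact alg_id _ _
  have huπ : ∀ n, π (u n) = 1 - (1 - Star.star (π d) * π d) ^ n := by
    intro n
    induction n with
    | zero => rw [hu0, map_zero, pow_zero, sub_self]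
    | succ n ih =>
      have h1 : π (u (n + 1)) = π (u n) + π c' - π c' * π (u n) := by
        rw [hu1, map_sub, map_add, map_mul π c' (u n)]
      have h2 : π c' = Star.star (π d) * π d := by rw [hc', map_mul, map_star]
      rw [h1, h2, ih, pow_succ']
      exact alg_id _ _
  have hun : ∀ n, ‖e.i (u n)‖ ≤ 2 := by
    intro n
    rw [huamb]
    have hdn' : ‖e.i d‖ ≤ 1 := by rw [e.norm]; exact hdn
    have h1 : ‖(1 : HH I N →L[ℂ] HH I N)‖ ≤ 1 := ContinuousLinearMap.norm_id_le
    have h2 : ∀ n : ℕ, ‖(1 - Star.star (e.i d) * e.i d) ^ n‖ ≤ 1 := by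
      intro n
      induction n with
      | zero => rw [pow_zero]; exact h1
      | succ n ih =>
        rw [pow_succ]
        calc _ ≤ ‖(1 - Star.star (e.i d) * e.i d) ^ n‖ * ‖1 - Star.star (e.i d) * e.i d‖ :=
              norm_mul_le _ _
          _ ≤ 1 * 1 := mul_le_mul ih (norm_one_sub_le hdn') (norm_nonneg _) zero_le_one
          _ = 1 := one_mul _
    exact (norm_sub_le _ _).trans (by linarith [h2 n])
  -- the contradiction
  have hbound : ∀ n, ‖π (y' * u n * y')‖ ≤ 1 / 4 := by
    intro n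
    refine (hle _).trans ?_
    rw [← e.norm, e.mul, e.mul]
    refine (hy2 _ (huoff n).1 (huoff n).2).trans ?_
    linarith [hun n]
  have hπd : ∀ v, π d v = 0 → v = 0 := by
    intro v hv
    apply hinj
    have h1 : π d = ((‖a‖⁻¹ : ℝ) : ℂ) • π a := by rw [hd, map_smul]
    rw [h1, smul_apply] at hv
    rcases smul_eq_zero.1 hv with h2 | h2
    · exfalso
      have h3 : ‖a‖⁻¹ = 0 := by exact_mod_cast h2
      exact han (inv_eq_zero.1 h3)
    · exact h2
  have hlim : ∀ v : H, Filter.Tendsto (fun n => π (y' * u n * y') v) Filter.atTop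
      (nhds (π (y' * y') v)) := by
    intro v
    have h1 := pow_tendsto ((hle d).trans hdn) hπd (π y' v)
    have h2 : ∀ n, π (y' * u n * y') v =
        π y' (π y' v - ((1 - Star.star (π d) * π d) ^ n) (π y' v)) := by
      intro n
      rw [map_mul, map_mul, huπ]
      rfl
    simp_rw [h2]
    have h3 := ((π y').continuous.tendsto (π y' v - 0)).comp
      (tendsto_const_nhds (x := π y' v) |>.sub h1)
    rw [sub_zero] at h3
    rw [map_mul]
    exact h3
  have hfin : ‖π (y' * y')‖ ≤ 1 / 4 := by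
    refine ContinuousLinearMap.opNorm_le_bound _ (by norm_num) fun v => ?_
    refine le_of_tendsto (hlim v).norm (Filter.Eventually.of_forall fun n => ?_)
    exact (ContinuousLinearMap.le_opNorm _ _).trans
      (mul_le_mul_of_nonneg_right (hbound n) (norm_nonneg _))
  rw [NonUnitalStarAlgHom.norm_map π hπi, ← e.norm, e.mul] at hfin
  linarith

end Emb

end

end Pool.Agent.R237.ZS
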