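import Mathlib

/-!
# Operators on `ℓ²(Ω)` given by injective maps between subsets of `Ω`
-/

set_option autoImplicit false

open scoped InnerProductSpace ComplexConjugate

namespace Pool.Agent.R237.ZS

/-- The Hilbert space `ℓ²(Ω)`. -/
abbrev HE (Ω : Type) : Type := lp (fun _ : Ω => ℂ) 2

noncomputable section

open Classical in
/-- The standard unit vector. -/
def dl {Ω : Type} (ω : Ω) : HE Ω := lp.single 2 ω (1 : ℂ)

theorem dl_apply {Ω : Type} (ω η : Ω) [Decidable (η = ω)] :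
    (dl ω : HE Ω) η = if η = ω then 1 else 0 := by
  classical
  rw [dl, lp.single_apply, Pi.single_apply]
  by_cases h : η = ω <;> simp [h]

theorem dl_self {Ω : Type} (ω : Ω) : (dl ω : HE Ω) ω = 1 := by
  classical
  rw [dl_apply, if_pos rfl]

theorem dl_ne {Ω : Type} {ω η : Ω} (h : η ≠ ω) : (dl ω : HE Ω) η = 0 := by
  classical
  rw [dl_apply, if_neg h]

theorem norm_dl {Ω : Type} (ω : Ω) : ‖(dl ω : HE Ω)‖ = 1 := by
  classical
  rw [dl, lp.norm_single (by norm_num)]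
  simp

theorem inner_dl {Ω : Type} (ω : Ω) (ξ : HE Ω) : ⟪dl ω, ξ⟫_ℂ = ξ ω := by
  classical
  rw [dl, lp.inner_single_left]
  simp

theorem norm_apply_le {Ω : Type} (ξ : HE Ω) (ω : Ω) : ‖ξ ω‖ ≤ ‖ξ‖ :=
  lp.norm_apply_le_norm (by norm_num) ξ ω

/-- Matrix entries. -/
def ent {Ω : Type} (T : HE Ω →L[ℂ] HE Ω) (ω η : Ω) : ℂ := T (dl η) ω

theorem ent_add {Ω : Type} (T S : HE Ω →L[ℂ] HE Ω) (ω η : Ω) :
    ent (T + S) ω η = ent T ω η + ent S ω η := rfl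

theorem ent_sub {Ω : Type} (T S : HE Ω →L[ℂ] HE Ω) (ω η : Ω) :
    ent (T - S) ω η = ent T ω η - ent S ω η := rfl

theorem ent_smul {Ω : Type} (c : ℂ) (T : HE Ω →L[ℂ] HE Ω) (ω η : Ω) :
    ent (c • T) ω η = c * ent T ω η := rfl

theorem ent_zero {Ω : Type} (ω η : Ω) :
    ent (0 : HE Ω →L[ℂ] HE Ω) ω η = 0 := rfl

theorem norm_ent_le {Ω : Type} (T : HE Ω →L[ℂ] HE Ω) (ω η : Ω) : ‖ent T ω η‖ ≤ ‖T‖ := by
  refine (norm_apply_le _ _).trans ((T.le_opNorm _).trans ?_)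
  rw [norm_dl, mul_one]

theorem ent_star {Ω : Type} (T : HE Ω →L[ℂ] HE Ω) (ω η : Ω) :
    ent (star T) ω η = conj (ent T η ω) := by
  have h1 : ent (star T) ω η = ⟪dl ω, (star T) (dl η)⟫_ℂ := (inner_dl _ _).symm
  have h2 : ent T η ω = ⟪dl η, T (dl ω)⟫_ℂ := (inner_dl _ _).symm
  rw [h1, h2, ContinuousLinearMap.star_eq_adjoint, ContinuousLinearMap.adjoint_inner_right,
    inner_conj_symm]

theorem ext_dl {Ω : Type} {T S : HE Ω →L[ℂ] HE Ω} (h : ∀ ω, T (dl ω) = S (dl ω)) : T = S := by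
  classical
  ext1 ξ
  have h1 := lp.hasSum_single (p := 2) (by norm_num) ξ
  have h2 := h1.mapL T
  have h3 := h1.mapL S
  refine h2.unique ?_
  convert h3 using 2 with ω
  have : (lp.single 2 ω (ξ ω) : HE Ω) = (ξ ω) • dl ω := by
    rw [dl, ← lp.single_smul]; simp
  rw [this, map_smul, map_smul, h]

theorem ext_ent {Ω : Type} {T S : HE Ω →L[ℂ] HE Ω} (h : ∀ ω η, ent T ω η = ent S ω η) :
    T = S := by
  refine ext_dl fun η => ?_
  ext ω
  exact h ω η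

open Classical in
theorem pull_memℓp {Ω : Type} (ψ : Ω → Ω) (D : Set Ω) (hψ : Set.InjOn ψ D) (ξ : HE Ω) :
    Memℓp (fun ω => if ω ∈ D then ξ (ψ ω) else (0 : ℂ)) 2 ∧
      ∑' ω, ‖(if ω ∈ D then ξ (ψ ω) else (0 : ℂ))‖ ^ 2 ≤ ‖ξ‖ ^ 2 := by
  have h0 : HasSum (fun m => ‖ξ m‖ ^ 2) (‖ξ‖ ^ 2) := by
    simpa using lp.hasSum_norm (p := 2) (by norm_num) ξ
  have hb : ∀ s : Finset Ω, ∑ ω ∈ s, ‖(if ω ∈ D then ξ (ψ ω) else (0 : ℂ))‖ ^ 2 ≤ ‖ξ‖ ^ 2 := by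
    intro s
    have h1 : ∑ ω ∈ s, ‖(if ω ∈ D then ξ (ψ ω) else (0 : ℂ))‖ ^ 2 =
        ∑ ω ∈ s with ω ∈ D, ‖ξ (ψ ω)‖ ^ 2 := by
      rw [Finset.sum_filter]
      refine Finset.sum_congr rfl fun ω _ => ?_
      split_ifs <;> simp
    rw [h1]
    have h2 : Set.InjOn ψ (s.filter (fun ω => ω ∈ D) : Set Ω) := by
      intro a ha b hb hab
      simp only [Finset.coe_filter, Set.mem_ofPred_eq] at ha hb
      exact hψ ha.2 hb.2 hab
    rw [← Finset.sum_image (f := fun ω => ‖ξ ω‖ ^ 2) (g := ψ) h2]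
    exact sum_le_hasSum _ (fun m _ => sq_nonneg _) h0
  have hs : Summable (fun ω => ‖(if ω ∈ D then ξ (ψ ω) else (0 : ℂ))‖ ^ 2) :=
    summable_of_sum_le (fun _ => sq_nonneg _) hb
  refine ⟨?_, hs.tsum_le_of_sum_le hb⟩
  rw [memℓp_gen_iff (by norm_num)]
  simpa using hs

open Classical in
/-- The operator `ξ ↦ (ω ↦ ξ (ψ ω) if ω ∈ D, else 0)`. -/
def pull {Ω : Type} (ψ : Ω → Ω) (D : Set Ω) (hψ : Set.InjOn ψ D) : HE Ω →L[ℂ] HE Ω :=
  LinearMap.mkContinuous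
    { toFun := fun ξ => ⟨fun ω => if ω ∈ D then ξ (ψ ω) else (0 : ℂ), (pull_memℓp ψ D hψ ξ).1⟩
      map_add' := fun ξ η => by
        ext ω
        simp only [lp.coeFn_add, Pi.add_apply]
        split_ifs <;> simp
      map_smul' := fun c ξ => by
        ext ω
        simp only [lp.coeFn_smul, Pi.smul_apply, RingHom.id_apply]
        split_ifs <;> simp }
    1 (fun ξ => by
      rw [one_mul]
      refine le_of_sq_le_sq ?_ (norm_nonneg _)
      have h0 : ∀ η : HE Ω, ‖η‖ ^ 2 = ∑' m, ‖η m‖ ^ 2 := fun η => by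
        have := lp.hasSum_norm (p := 2) (by norm_num) η
        have h := HasSum.tsum_eq (by simpa using this :
          HasSum (fun m => ‖η m‖ ^ 2) (‖η‖ ^ 2))
        exact h.symm
      rw [h0]
      exact (pull_memℓp ψ D hψ ξ).2)

open Classical in
theorem pull_apply {Ω : Type} (ψ : Ω → Ω) (D : Set Ω) (hψ : Set.InjOn ψ D) (ξ : HE Ω) (ω : Ω) :
    pull ψ D hψ ξ ω = if ω ∈ D then ξ (ψ ω) else 0 := rfl

theorem norm_pull_le {Ω : Type} (ψ : Ω → Ω) (D : Set Ω) (hψ : Set.InjOn ψ D) :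
    ‖pull ψ D hψ‖ ≤ 1 := LinearMap.mkContinuous_norm_le _ zero_le_one _

end

end Pool.Agent.R237.ZS
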