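import Pool.Agent.R237.ZS.Gen

/-!
# Local constancy, supports and simplicity
-/

set_option autoImplicit false

open scoped InnerProductSpace ComplexConjugate symmDiff

namespace Pool.Agent.R237.ZS

noncomputable section

variable {J M : Type}

theorem flip_empty (x : Set J) : x ∆ (∅ : Set J) = x := by
  rw [← Set.bot_eq_empty, symmDiff_bot]

theorem flip_empty' (x : Set J) : x ∆ ((∅ : Finset J) : Set J) = x := by
  rw [Finset.coe_empty, flip_empty]

theorem lc0 {T : HE (Set J × M) →L[ℂ] HE (Set J × M)} (hT : T ∈ B0 J M) :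
    ∃ G : Finset J, ∀ x x' : Set J, Agr G x x' → ∀ (F : Finset J) (m m' : M),
      ent T (x ∆ (F : Set J), m) (x, m') = ent T (x' ∆ (F : Set J), m) (x', m') := by
  classical
  refine Submodule.span_induction (p := fun T _ => ∃ G : Finset J, ∀ x x' : Set J,
    Agr G x x' → ∀ (F : Finset J) (m m' : M),
      ent T (x ∆ (F : Set J), m) (x, m') = ent T (x' ∆ (F : Set J), m) (x', m')) ?_ ?_ ?_ ?_ hT
  · rintro _ ⟨F, G, z, m, m', rfl⟩
    refine ⟨G, fun x x' h F' l l' => ?_⟩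
    rw [ent_W, ent_W]
    have h1 : ∀ y : Set J, (y ∆ (F' : Set J) = y ∆ (F : Set J)) ↔ (F' : Set J) = F :=
      fun y => (symmDiff_right_injective y).eq_iff
    have h2 : Agr G x z ↔ Agr G x' z := ⟨fun h3 => h.symm.trans h3, fun h3 => h.trans h3⟩
    refine if_congr ?_ rfl rfl
    rw [h1, h1, h2]
  · exact ⟨∅, fun _ _ _ _ _ _ => rfl⟩
  · rintro A B _ _ ⟨G, hG⟩ ⟨G', hG'⟩
    refine ⟨G ∪ G', fun x x' h F m m' => ?_⟩
    rw [ent_add, ent_add, hG x x' (h.mono Finset.subset_union_left),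
      hG' x x' (h.mono Finset.subset_union_right)]
  · rintro c A _ ⟨G, hG⟩
    refine ⟨G, fun x x' h F m m' => ?_⟩
    rw [ent_smul, ent_smul, hG x x' h]

theorem lc {T : HE (Set J × M) →L[ℂ] HE (Set J × M)} (hT : T ∈ BB J M) {ε : ℝ} (hε : 0 < ε) :
    ∃ G : Finset J, ∀ x x' : Set J, Agr G x x' → ∀ (F : Finset J) (m m' : M),
      ‖ent T (x ∆ (F : Set J), m) (x, m') - ent T (x' ∆ (F : Set J), m) (x', m')‖ ≤ ε := by
  obtain ⟨S, hS, h⟩ := approx hT (half_pos hε)
  obtain ⟨G, hG⟩ := lc0 hS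
  refine ⟨G, fun x x' hx F m m' => ?_⟩
  have h1 := norm_ent_le (T - S) (x ∆ (F : Set J), m) (x, m')
  have h2 := norm_ent_le (T - S) (x' ∆ (F : Set J), m) (x', m')
  rw [ent_sub] at h1 h2
  rw [← hG x x' hx F m m'] at h2
  set a := ent T (x ∆ (F : Set J), m) (x, m')
  set b := ent T (x' ∆ (F : Set J), m) (x', m')
  set s := ent S (x ∆ (F : Set J), m) (x, m')
  have h3 : a - b = (a - s) - (b - s) := by ring
  rw [h3]
  refine (norm_sub_le _ _).trans ?_
  linarith

theorem supp {T : HE (Set J × M) →L[ℂ] HE (Set J × M)} (hT : T ∈ BB J M) {y x : Set J}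
    (hyx : ∀ F : Finset J, y ≠ x ∆ (F : Set J)) (l k : M) : ent T (y, l) (x, k) = 0 := by
  classical
  have h0 : ∀ S ∈ B0 J M, ent S (y, l) (x, k) = 0 := by
    intro S hS
    refine Submodule.span_induction (p := fun T _ => ent T (y, l) (x, k) = 0) ?_ ?_ ?_ ?_ hS
    · rintro _ ⟨F, G, z, m, m', rfl⟩
      rw [ent_W, if_neg]
      rintro ⟨-, -, h, -⟩
      exact hyx F h
    · rfl
    · intro A B _ _ hA hB
      rw [ent_add, hA, hB, add_zero]
    · intro c A _ hA
      rw [ent_smul, hA, mul_zero]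
  by_contra hne
  obtain ⟨S, hS, h⟩ := approx hT (norm_pos_iff.2 hne)
  have h1 := norm_ent_le (T - S) (y, l) (x, k)
  rw [ent_sub, h0 S hS, sub_zero] at h1
  linarith

theorem fin0 {T : HE (Set J × M) →L[ℂ] HE (Set J × M)} (hT : T ∈ B0 J M) :
    ∃ N : Finset M, ∀ m ∉ N, ∀ (x : Set J) (ω : Set J × M),
      ent T (x, m) ω = 0 ∧ ent T ω (x, m) = 0 := by
  classical
  refine Submodule.span_induction (p := fun T _ => ∃ N : Finset M, ∀ m ∉ N, ∀ (x : Set J)
    (ω : Set J × M), ent T (x, m) ω = 0 ∧ ent T ω (x, m) = 0) ?_ ?_ ?_ ?_ hT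
  · rintro _ ⟨F, G, z, m, m', rfl⟩
    refine ⟨{m, m'}, fun l hl x ⟨y, k⟩ => ?_⟩
    simp only [Finset.mem_insert, Finset.mem_singleton, not_or] at hl
    rw [ent_W, ent_W, if_neg, if_neg]
    · exact ⟨rfl, rfl⟩
    · rintro ⟨h, -⟩; exact hl.2 h
    · rintro ⟨-, -, -, h⟩; exact hl.1 h
  · exact ⟨∅, fun _ _ _ _ => ⟨rfl, rfl⟩⟩
  · rintro A B _ _ ⟨G, hG⟩ ⟨G', hG'⟩
    refine ⟨G ∪ G', fun m hm x ω => ?_⟩
    simp only [Finset.mem_union, not_or] at hm
    rw [ent_add, ent_add, (hG m hm.1 x ω).1, (hG m hm.1 x ω).2, (hG' m hm.2 x ω).1,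
      (hG' m hm.2 x ω).2, add_zero]
    exact ⟨rfl, rfl⟩
  · rintro c A _ ⟨G, hG⟩
    refine ⟨G, fun m hm x ω => ?_⟩
    rw [ent_smul, ent_smul, (hG m hm x ω).1, (hG m hm x ω).2, mul_zero]
    exact ⟨rfl, rfl⟩

theorem cnt {T : HE (Set J × M) →L[ℂ] HE (Set J × M)} (hT : T ∈ BB J M) :
    ∃ N : Set M, N.Countable ∧ ∀ m ∉ N, ∀ (x : Set J) (ω : Set J × M),
      ent T (x, m) ω = 0 ∧ ent T ω (x, m) = 0 := by
  have h1 : ∀ n : ℕ, ∃ N : Finset M, ∀ m ∉ N, ∀ (x : Set J) (ω : Set J × M),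
      ‖ent T (x, m) ω‖ ≤ 1 / (n + 1) ∧ ‖ent T ω (x, m)‖ ≤ 1 / (n + 1) := by
    intro n
    obtain ⟨S, hS, h⟩ := approx hT (Nat.one_div_pos_of_nat (n := n) (α := ℝ))
    obtain ⟨N, hN⟩ := fin0 hS
    refine ⟨N, fun m hm x ω => ?_⟩
    have h1 := norm_ent_le (T - S) (x, m) ω
    have h2 := norm_ent_le (T - S) ω (x, m)
    rw [ent_sub, (hN m hm x ω).1, sub_zero] at h1
    rw [ent_sub, (hN m hm x ω).2, sub_zero] at h2
    exact ⟨h1.trans h.le, h2.trans h.le⟩
  choose N hN using h1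
  refine ⟨⋃ n, (N n : Set M), Set.countable_iUnion fun n => (N n).countable_toSet, ?_⟩
  intro m hm x ω
  have hm' : ∀ n, m ∉ N n := fun n hn => hm (Set.mem_iUnion.2 ⟨n, hn⟩)
  have key : ∀ r : ℝ, (∀ n : ℕ, r ≤ 1 / (n + 1)) → r ≤ 0 := by
    intro r hr
    by_contra hlt
    push Not at hlt
    obtain ⟨n, hn⟩ := exists_nat_one_div_lt hlt
    linarith [hr n]
  constructor
  · exact norm_le_zero_iff.1 (key _ fun n => (hN n m (hm' n) x ω).1)
  · exact norm_le_zero_iff.1 (key _ fun n => (hN n m (hm' n) x ω).2)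

theorem compress {T : HE (Set J × M) →L[ℂ] HE (Set J × M)} (hT : T ∈ B0 J M) :
    ∃ G0 : Finset J, ∀ G, G0 ⊆ G → ∀ (z : Set J) (m : M),
      W ∅ G z m m * T * W ∅ G z m m = ent T (z, m) (z, m) • W ∅ G z m m := by
  classical
  refine Submodule.span_induction (p := fun T _ => ∃ G0 : Finset J, ∀ G, G0 ⊆ G →
    ∀ (z : Set J) (m : M), W ∅ G z m m * T * W ∅ G z m m = ent T (z, m) (z, m) • W ∅ G z m m)
    ?_ ?_ ?_ ?_ hT
  · rintro _ ⟨F, G1, z1, m1, m2, rfl⟩
    refine ⟨G1 ∪ F, fun G hG z m => ?_⟩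
    refine ext_dl fun ⟨x, k⟩ => ?_
    rw [mul_apply_eq_comp, mul_apply_eq_comp, smul_apply, W_dl]
    by_cases h1 : k = m ∧ Agr G x z
    · rw [if_pos h1, W_dl, ent_W]
      obtain ⟨rfl, h1⟩ := h1
      have hx : x ∆ ((∅ : Finset J) : Set J) = x := flip_empty' x
      rw [hx]
      by_cases h2 : k = m2 ∧ Agr G1 x z1
      · rw [if_pos h2, W_dl]
        have h4 : Agr G1 z z1 :=
          (h1.mono (Finset.subset_union_left.trans hG)).symm.trans h2.2
        by_cases h3 : F = ∅ ∧ k = m1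
        · obtain ⟨rfl, rfl⟩ := h3
          rw [hx, if_pos ⟨rfl, h1⟩, if_pos ⟨h2.1, h4, (flip_empty' z).symm, rfl⟩, one_smul, hx]
        · rw [if_neg, if_neg]
          · rw [zero_smul]
          · rintro ⟨-, -, h5, h6⟩
            apply h3
            refine ⟨?_, h6⟩
            have : (F : Set J) = ∅ := by
              have h7 : z ∆ (F : Set J) = z ∆ (∅ : Set J) := by rw [← h5, flip_empty]
              exact symmDiff_right_injective z h7
            simpa using this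
          · rintro ⟨h5, h6⟩
            apply h3
            refine ⟨?_, h5.symm⟩
            rw [← Finset.not_nonempty_iff_eq_empty]
            rintro ⟨j, hj⟩
            have h7 := (h6.trans h1.symm) j (hG (Finset.mem_union_right _ hj))
            rw [Set.mem_symmDiff] at h7
            have h8 : j ∈ (F : Set J) := hj
            tauto
      · rw [if_neg h2, map_zero, if_neg, zero_smul]
        rintro ⟨h5, h6, -, -⟩
        exact h2 ⟨h5, (h1.mono (Finset.subset_union_left.trans hG)).trans h6⟩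
    · rw [if_neg h1, map_zero, map_zero, smul_zero]
  · exact ⟨∅, fun G _ z m => by rw [ent_zero, zero_smul, mul_zero, zero_mul]⟩
  · rintro A B _ _ ⟨G, hG⟩ ⟨G', hG'⟩
    refine ⟨G ∪ G', fun G2 hG2 z m => ?_⟩
    rw [ent_add, add_smul, ← hG G2 (Finset.subset_union_left.trans hG2) z m,
      ← hG' G2 (Finset.subset_union_right.trans hG2) z m, mul_add, add_mul]
  · rintro c A _ ⟨G, hG⟩
    refine ⟨G, fun G2 hG2 z m => ?_⟩
    rw [ent_smul, mul_smul, ← hG G2 hG2 z m, mul_smul_comm, smul_mul_assoc]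

variable {K : Submodule ℂ (HE (Set J × M) →L[ℂ] HE (Set J × M))}

theorem proj_mem (hK : IsClosed (K : Set (HE (Set J × M) →L[ℂ] HE (Set J × M))))
    (hl : ∀ X ∈ BB J M, ∀ S ∈ K, X * S ∈ K) (hr : ∀ X ∈ BB J M, ∀ S ∈ K, S * X ∈ K)
    {T : HE (Set J × M) →L[ℂ] HE (Set J × M)} (hT : T ∈ BB J M) (hTK : T ∈ K)
    {z : Set J} {m : M} (hz : ent T (z, m) (z, m) ≠ 0) :
    ∃ G, W ∅ G z m m ∈ K := by
  set c := ent T (z, m) (z, m) with hc
  have hc0 : 0 < ‖c‖ := norm_pos_iff.2 hz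
  obtain ⟨S, hS, h⟩ := approx hT (show 0 < ‖c‖ / 4 by positivity)
  obtain ⟨G, hG⟩ := compress hS
  refine ⟨G, ?_⟩
  set P := W ∅ G z m m with hP
  have hPB : P ∈ BB J M := W_mem _ _ _ _ _
  have hPn : ‖P‖ ≤ 1 := norm_W_le _ _ _ _ _
  have hPP : P * P = P := by
    classical
    refine ext_dl fun ⟨x, k⟩ => ?_
    rw [mul_apply_eq_comp, hP, W_dl]
    split_ifs with h1
    · rw [W_dl, flip_empty', if_pos ⟨rfl, h1.2⟩, flip_empty']
    · rw [map_zero]
  set s := c⁻¹ • (P * T * P) with hs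
  have hsK : s ∈ K := K.smul_mem _ (hr _ hPB _ (hl _ hPB _ hTK))
  set r := P - s with hr'
  have hrn : ‖r‖ ≤ 1 / 2 := by
    have h1 : r = c⁻¹ • ((c - ent S (z, m) (z, m)) • P - P * (T - S) * P) := by
      have h2 : P * S * P = ent S (z, m) (z, m) • P := hG G subset_rfl z m
      have h3 : (c - ent S (z, m) (z, m)) • P - P * (T - S) * P = c • P - P * T * P := by
        rw [sub_smul, mul_sub, sub_mul, h2]; abel
      rw [h3, smul_sub, smul_smul, inv_mul_cancel₀ hz, one_smul]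
    have h2 : ‖c - ent S (z, m) (z, m)‖ ≤ ‖c‖ / 4 := by
      have := norm_ent_le (T - S) (z, m) (z, m)
      rw [ent_sub] at this
      exact this.trans h.le
    have h3 : ‖(c - ent S (z, m) (z, m)) • P‖ ≤ ‖c‖ / 4 := by
      rw [norm_smul]
      calc _ ≤ ‖c‖ / 4 * 1 := mul_le_mul h2 hPn (norm_nonneg _) (by positivity)
        _ = _ := mul_one _
    have h4 : ‖P * (T - S) * P‖ ≤ ‖c‖ / 4 := by
      calc ‖P * (T - S) * P‖ ≤ ‖P * (T - S)‖ * ‖P‖ := norm_mul_le _ _
        _ ≤ (‖P‖ * ‖T - S‖) * ‖P‖ := by gcongr; exact norm_mul_le _ _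
        _ ≤ (1 * (‖c‖ / 4)) * 1 := by gcongr
        _ = _ := by ring
    rw [h1, norm_smul, norm_inv]
    calc ‖c‖⁻¹ * ‖(c - ent S (z, m) (z, m)) • P - P * (T - S) * P‖
        ≤ ‖c‖⁻¹ * (‖c‖ / 4 + ‖c‖ / 4) := by
          gcongr
          exact (norm_sub_le _ _).trans (add_le_add h3 h4)
      _ = 1 / 2 := by field_simp; norm_num
  have hPr : r * P = r := by
    rw [hr', hs, sub_mul, hPP, smul_mul_assoc, mul_assoc (P * T), hPP]
  have hpow : ∀ n : ℕ, P - r ^ (n + 1) ∈ K := by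
    intro n
    induction n with
    | zero => rw [zero_add, pow_one, hr', sub_sub_cancel]; exact hsK
    | succ n ih =>
      have h1 : P - r ^ (n + 1 + 1) = (P - r ^ (n + 1)) + r ^ (n + 1) * s := by
        have h2 : r ^ (n + 1) * P = r ^ (n + 1) := by
          rw [pow_succ, mul_assoc, hPr]
        rw [pow_succ r (n + 1)]
        nth_rewrite 3 [hr']
        rw [mul_sub, h2]
        abel
      have h3 : r ^ (n + 1) * s = P * s - (P - r ^ (n + 1)) * s := by
        rw [sub_mul]; abel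
      rw [h1, h3]
      have hrB : r ∈ BB J M := (BB J M).sub_mem hPB
        ((BB J M).smul_mem _ (BB_mul (BB_mul hPB hT) hPB))
      have hrp : r ^ (n + 1) ∈ BB J M := by
        clear h1 h3 ih
        induction n with
        | zero => rw [zero_add, pow_one]; exact hrB
        | succ n ih => rw [pow_succ]; exact BB_mul ih hrB
      refine K.add_mem ih (K.sub_mem (hl _ hPB _ hsK) ?_)
      rw [sub_mul]
      exact K.sub_mem (hl _ hPB _ hsK) (hl _ hrp _ hsK)
  have hlim : Filter.Tendsto (fun n : ℕ => P - r ^ (n + 1)) Filter.atTop (nhds (P - 0)) := by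
    refine tendsto_const_nhds.sub ?_
    exact (tendsto_pow_atTop_nhds_zero_of_norm_lt_one (lt_of_le_of_lt hrn (by norm_num))).comp
      (Filter.tendsto_add_atTop_nat 1)
  rw [sub_zero] at hlim
  exact hK.mem_of_tendsto hlim (Filter.Eventually.of_forall hpow)

theorem W_mem_of_big (hl : ∀ X ∈ BB J M, ∀ S ∈ K, X * S ∈ K)
    (hr : ∀ X ∈ BB J M, ∀ S ∈ K, S * X ∈ K) {G : Finset J} {z : Set J} {m : M}
    (hP : W ∅ G z m m ∈ K) (G' : Finset J) (hG : G ⊆ G') (F : Finset J) (z' : Set J)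
    (m1 m2 : M) : W F G' z' m1 m2 ∈ K := by
  classical
  set F' : Finset J := G.filter (fun j => ¬ (j ∈ z' ↔ j ∈ z)) with hF'
  have hz : Agr G (z' ∆ (F' : Set J)) z := by
    intro j hj
    rw [Set.mem_symmDiff]
    simp only [hF', Finset.coe_filter, Set.mem_ofPred_eq, hj, true_and]
    tauto
  have h1 : W F G' z' m1 m2 = W (F' ∆ F) ∅ z m1 m * (W ∅ G z m m * W F' G' z' m m2) := by
    refine ext_dl fun ⟨x, k⟩ => ?_
    rw [mul_apply_eq_comp, mul_apply_eq_comp, W_dl, W_dl]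
    split_ifs with h2
    · rw [W_dl, if_pos, W_dl, if_pos]
      · rw [Finset.coe_empty, Finset.coe_symmDiff, ← Set.bot_eq_empty, symmDiff_bot,
          ← symmDiff_assoc, symmDiff_assoc x, symmDiff_self, symmDiff_bot]
      · exact ⟨rfl, fun j hj => absurd hj (Finset.notMem_empty j)⟩
      · exact ⟨rfl, (Agr.flip (h2.2.mono hG) _).trans hz⟩
    · rw [map_zero, map_zero]
  rw [h1]
  exact hl _ (W_mem _ _ _ _ _) _ (hr _ (W_mem _ _ _ _ _) _ hP)

theorem W_split [DecidableEq J] (F G : Finset J) (z : Set J) (m m' : M) {j : J} (hj : j ∉ G) :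
    W F G z m m' = W F (insert j G) z m m' + W F (insert j G) (z ∆ {j}) m m' := by
  classical
  refine ext_dl fun ⟨x, k⟩ => ?_
  rw [add_apply, W_dl, W_dl, W_dl]
  have hG : ∀ i ∈ G, (i ∈ z ∆ {j} ↔ i ∈ z) := by
    intro i hi
    have : i ≠ j := fun h => hj (h ▸ hi)
    rw [Set.mem_symmDiff]
    simp [this]
  have hjj : j ∈ z ∆ {j} ↔ j ∉ z := by
    rw [Set.mem_symmDiff]
    simp
  by_cases h1 : k = m' ∧ Agr G x z
  · rw [if_pos h1]
    by_cases h2 : j ∈ x ↔ j ∈ z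
    · rw [if_pos, if_neg, add_zero]
      · rintro ⟨-, h3⟩
        have := h3 j (Finset.mem_insert_self _ _)
        tauto
      · refine ⟨h1.1, fun i hi => ?_⟩
        rcases Finset.mem_insert.1 hi with rfl | hi
        · exact h2
        · exact h1.2 i hi
    · rw [if_neg, if_pos, zero_add]
      · refine ⟨h1.1, fun i hi => ?_⟩
        rcases Finset.mem_insert.1 hi with rfl | hi
        · tauto
        · rw [hG i hi]; exact h1.2 i hi
      · rintro ⟨-, h3⟩
        have := h3 j (Finset.mem_insert_self _ _)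
        tauto
  · rw [if_neg h1, if_neg, if_neg, add_zero]
    · rintro ⟨h2, h3⟩
      exact h1 ⟨h2, fun i hi => (h3 i (Finset.mem_insert_of_mem hi)).trans (hG i hi)⟩
    · rintro ⟨h2, h3⟩
      exact h1 ⟨h2, fun i hi => h3 i (Finset.mem_insert_of_mem hi)⟩

theorem BB_simple (hK : IsClosed (K : Set (HE (Set J × M) →L[ℂ] HE (Set J × M))))
    (hl : ∀ X ∈ BB J M, ∀ S ∈ K, X * S ∈ K) (hr : ∀ X ∈ BB J M, ∀ S ∈ K, S * X ∈ K)
    {T : HE (Set J × M) →L[ℂ] HE (Set J × M)} (hT : T ∈ BB J M) (hTK : T ∈ K)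
    (hT0 : T ≠ 0) : BB J M ≤ K := by
  classical
  -- a nonzero entry
  obtain ⟨⟨y, l⟩, ⟨x, k⟩, hent⟩ : ∃ ω η, ent T ω η ≠ 0 := by
    by_contra hcon
    push Not at hcon
    exact hT0 (ext_ent fun ω η => by rw [hcon, ent_zero])
  obtain ⟨F, hF⟩ : ∃ F : Finset J, y = x ∆ (F : Set J) := by
    by_contra hcon
    push Not at hcon
    exact hent (supp hT hcon l k)
  set T' := T * W F ∅ y k l with hT'
  have hT'B : T' ∈ BB J M := BB_mul hT (W_mem _ _ _ _ _)
  have hT'K : T' ∈ K := hr _ (W_mem _ _ _ _ _) _ hTK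
  have he : ent T' (y, l) (y, l) ≠ 0 := by
    rw [hT', ent, mul_apply_eq_comp, W_dl, if_pos ⟨rfl, Agr.refl _ _⟩]
    have : y ∆ (F : Set J) = x := by rw [hF, flip_flip]
    rw [this]
    exact hent
  obtain ⟨G, hG⟩ := proj_mem hK hl hr hT'B hT'K he
  have hW : ∀ (H G' : Finset J), (∀ (F : Finset J) (z' : Set J) (m1 m2 : M),
      W F (H ∪ G') z' m1 m2 ∈ K) → ∀ (F : Finset J) (z' : Set J) (m1 m2 : M),
      W F G' z' m1 m2 ∈ K := by
    intro H
    induction H using Finset.induction_on with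
    | empty => intro G' h; simpa using h
    | insert j H hj ih =>
      intro G' h
      refine ih G' fun F z' m1 m2 => ?_
      by_cases hjj : j ∈ H ∪ G'
      · have := h F z' m1 m2
        rwa [Finset.insert_union, Finset.insert_eq_of_mem hjj] at this
      · rw [W_split F (H ∪ G') z' m1 m2 hjj]
        have h1 := h F z' m1 m2
        have h2 := h F (z' ∆ {j}) m1 m2
        rw [Finset.insert_union] at h1 h2
        exact K.add_mem h1 h2
  have hall : ∀ (F G' : Finset J) (z' : Set J) (m1 m2 : M), W F G' z' m1 m2 ∈ K :=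
    fun F G' => hW G G' (fun F z' m1 m2 => W_mem_of_big hl hr hG (G ∪ G')
      Finset.subset_union_left F z' m1 m2) F
  have h0 : B0 J M ≤ K := by
    refine Submodule.span_le.2 ?_
    rintro _ ⟨F, G', z', m1, m2, rfl⟩
    exact hall _ _ _ _ _
  exact (B0 J M).topologicalClosure_minimal h0 hK

end

end Pool.Agent.R237.ZS
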